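import Pool.Agent.helper12.NA.DefsP2

/-!
# MP_baa4d7_al, project NA, `p = 2`: the exponent `m` exists, and its use
-/

set_option autoImplicit false

namespace Pool.Agent.LE

open Pool.Agent.helper58.DC Pool.Agent.DI Pool.Agent.GR Pool.Agent.OB Pool.Agent.DR Pool.Agent.FI Pool.Agent.FI3 Pool.Agent.FI4

theorem GM4_five (i : ℕ) : ∃ u : ℕ, 5 ^ 2 ^ i = 1 + 2 ^ (i + 2) * (2 * u + 1) := by
  induction i with
  | zero => exact ⟨0, by norm_num⟩
  | succ i ih =>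
    obtain ⟨u, hu⟩ := ih
    refine ⟨u + 2 ^ i * (2 * u + 1) ^ 2, ?_⟩
    rw [pow_succ 2 i, pow_mul, hu]
    ring

theorem GM4_gen (s : ℕ) (hs : s ≡ 1 [MOD 4]) (k : ℕ) : ∃ j : ℕ, 5 ^ j ≡ s [MOD 2 ^ (k + 2)] := by
  induction k with
  | zero =>
    refine ⟨0, ?_⟩
    rw [pow_zero]
    exact hs.symm
  | succ k ih =>
    obtain ⟨j, hj⟩ := ih
    by_cases h : 5 ^ j ≡ s [MOD 2 ^ (k + 1 + 2)]
    · exact ⟨j, h⟩
    · obtain ⟨u, hu⟩ := GM4_five k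
      refine ⟨j + 2 ^ k, ?_⟩
      have h1 : ((2 ^ (k + 2) : ℕ) : ℤ) ∣ (s : ℤ) - (5 ^ j : ℕ) := (Nat.modEq_iff_dvd).1 hj
      obtain ⟨c, hc⟩ := h1
      have h2 : ¬ (2 : ℤ) ∣ c := by
        rintro ⟨d, hd⟩
        apply h
        apply (Nat.modEq_iff_dvd).2
        refine ⟨d, ?_⟩
        rw [hc, hd]
        push_cast
        ring
      have h3 : ∃ d : ℤ, c = 2 * d + 1 := by
        have h4 : c % 2 = 1 := by omega
        exact ⟨c / 2, by omega⟩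
      obtain ⟨d, hd⟩ := h3
      have h5 : ∃ w : ℤ, ((5 ^ j : ℕ) : ℤ) = 2 * w + 1 := by
        have h6 : (5 ^ j : ℕ) % 2 = 1 := by
          rw [Nat.pow_mod]
          norm_num
        refine ⟨((5 ^ j : ℕ) : ℤ) / 2, by omega⟩
      obtain ⟨w, hw⟩ := h5
      apply (Nat.modEq_iff_dvd).2
      have h7 : ((5 ^ (j + 2 ^ k) : ℕ) : ℤ) = ((5 ^ j : ℕ) : ℤ) * (1 + 2 ^ (k + 2) * (2 * u + 1)) := by
        rw [pow_add, hu]
        push_cast
        ring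
      have h8 : (s : ℤ) = ((5 ^ j : ℕ) : ℤ) + ((2 ^ (k + 2) : ℕ) : ℤ) * c := by linarith
      rw [h7, h8, hd]
      refine ⟨d - w * (2 * u + 1) - u, ?_⟩
      have h9 : ((2 ^ (k + 1 + 2) : ℕ) : ℤ) = 2 * 2 ^ (k + 2) := by
        push_cast
        ring
      rw [h9, hw]
      push_cast
      ring

theorem GM4 (n : ℕ) (hn : 0 < n) : ∃ m : ℕ, Gm4 n m := by
  have hp : Nat.Prime 2 := Nat.prime_two
  obtain ⟨a, n', hn', rfl⟩ := Nat.exists_eq_pow_mul_and_not_dvd hn.ne' 2 hp.ne_one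
  have hcp : ∀ (k d : ℕ), ¬ 2 ∣ d → Nat.Coprime (2 ^ k) d := fun k d hd =>
    Nat.Coprime.pow_left k ((Nat.Prime.coprime_iff_not_dvd hp).2 hd)
  obtain ⟨m, hm1, hm2⟩ := Nat.chineseRemainder (hcp a n' hn') 5 1
  have hdv : ∀ k, 2 ^ k ∣ 2 ^ a * n' → 2 ^ k ∣ 2 ^ a := fun k hk => Nat.Coprime.dvd_of_dvd_mul_right (hcp k n' hn') hk
  have h1p : 5 ≡ 1 [MOD 2] := by decide
  refine ⟨m, ?_, ?_, ?_, ?_⟩
  · refine Nat.Coprime.mul_right ?_ ?_
    · rcases Nat.eq_zero_or_pos a with ha | ha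
      · rw [ha, pow_zero]
        exact Nat.coprime_one_right m
      · refine Nat.Coprime.pow_right _ ?_
        have h2 : m ≡ 1 [MOD 2] := (hm1.of_dvd (dvd_pow_self 2 ha.ne')).trans h1p
        have h := h2.gcd_eq
        rw [Nat.gcd_one_left] at h
        exact h
    · have h := hm2.gcd_eq
      rw [Nat.gcd_one_left] at h
      exact h
  · intro d hd hpd
    exact hm2.of_dvd (Nat.Coprime.dvd_of_dvd_mul_left (hcp a d hpd).symm hd)
  · intro hpn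
    have h := hdv 1 (by rw [pow_one]; exact hpn)
    rw [pow_one] at h
    exact (hm1.of_dvd h).trans h1p
  · intro s hs
    obtain ⟨j, hj⟩ := GM4_gen s hs a
    refine ⟨j, fun k hk => ?_⟩
    have h4 : 5 ^ j ≡ s [MOD 2 ^ a] := hj.of_dvd (pow_dvd_pow 2 (by omega))
    exact ((hm1.pow j).trans h4).of_dvd (hdv k hk)

theorem GP4 (G : Type) [Group G] [Finite G] (m : ℕ) (hm : Gm4 (Nat.card G) m) (ψ : G → ℂ) (hψ : PR m ψ)
    (u v : G) (huv : u * v = v * u) (hu : PEl 2 u) (hv : PReg 2 v) (s : ℕ) (hs : s ≡ 1 [MOD 4]) : ψ (u ^ s * v) = ψ (u * v) := by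
  obtain ⟨k, hk⟩ := hu
  obtain ⟨j, hj⟩ := hm.gen s hs
  have hPR : ∀ (i : ℕ) (g : G), ψ (g ^ (m ^ i)) = ψ g := by
    intro i
    induction i with
    | zero => intro g; rw [pow_zero, pow_one]
    | succ i ih => intro g; rw [pow_succ, pow_mul, hψ, ih]
  have hov : orderOf v ∣ Nat.card G := orderOf_dvd_natCard v
  have hou : orderOf u ∣ Nat.card G := orderOf_dvd_natCard u
  obtain ⟨k', -, hk'⟩ := (Nat.dvd_prime_pow Nat.prime_two).1 (orderOf_dvd_of_pow_eq_one hk)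
  have h1 : u ^ (m ^ j) = u ^ s := by
    rw [pow_eq_pow_iff_modEq, hk']
    exact hj k' (hk' ▸ hou)
  have h2 : v ^ (m ^ j) = v := by
    have h3 : v ^ (m ^ j) = v ^ 1 := by
      rw [pow_eq_pow_iff_modEq]
      have h4 := (hm.reg (orderOf v) hov hv).pow j
      rwa [one_pow] at h4
    rwa [pow_one] at h3
  have h3 : (u * v) ^ (m ^ j) = u ^ s * v := by
    rw [(show Commute u v from huv).mul_pow, h1, h2]
  rw [← h3, hPR]

/-- the exponent -/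
theorem ZGA4_exp (k i j : ℕ) (hi : ¬ 2 ∣ i) (hij : i ≡ j [MOD 4]) :
    ∃ s : ℕ, s ≡ 1 [MOD 4] ∧ i * s ≡ j [MOD 2 ^ k] := by
  have hp : Nat.Prime 2 := Nat.prime_two
  have hcop : Nat.Coprime i (2 ^ (k + 2)) := ((Nat.Prime.coprime_iff_not_dvd hp).2 hi).symm.pow_right _
  have h1 : 1 < 2 ^ (k + 2) := Nat.one_lt_pow (by omega) hp.one_lt
  obtain ⟨a, ha⟩ := Nat.exists_mul_mod_eq_one_of_coprime hcop h1
  have ha' : i * a ≡ 1 [MOD 2 ^ (k + 2)] := by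
    unfold Nat.ModEq
    rw [ha.2, Nat.mod_eq_of_lt h1]
  have hmain : i * (a * j) ≡ j [MOD 2 ^ (k + 2)] := by
    have := ha'.mul_right j
    rwa [one_mul, mul_assoc] at this
  refine ⟨a * j, ?_, hmain.of_dvd (pow_dvd_pow 2 (by omega))⟩
  have h4 : (4 : ℕ) ∣ 2 ^ (k + 2) := ⟨2 ^ k, by ring⟩
  have h2 : i * (a * j) ≡ i * 1 [MOD 4] := by
    rw [mul_one]
    exact (hmain.of_dvd h4).trans hij.symm
  have h5 : Nat.gcd 4 i = 1 := by
    have : Nat.Coprime i (2 ^ 2) := ((Nat.Prime.coprime_iff_not_dvd hp).2 hi).symm.pow_right _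
    exact this.symm
  exact Nat.ModEq.cancel_left_of_coprime h5 h2

theorem ZGA4 (G : Type) [Group G] [Finite G] (m : ℕ) (hm : Gm4 (Nat.card G) m) (ψ : G → ℂ) (hψ : PR m ψ) (z : G) (hz : PEl 2 z)
    (η₀ : G → ℂ) (i j : ℕ) (hi : ¬ 2 ∣ i) (hij : i ≡ j [MOD 4]) :
    az 2 (Cz (⊤ : Subgroup G) z) η₀ ψ (z ^ i) = az 2 (Cz (⊤ : Subgroup G) z) η₀ ψ (z ^ j) := by
  obtain ⟨k, hk⟩ := hz
  obtain ⟨s, hs1, hs2⟩ := ZGA4_exp k i j hi hij
  have hpow : (z ^ i) ^ s = z ^ j := by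
    rw [← pow_mul]
    exact pow_eq_pow_iff_modEq.2 (hs2.of_dvd (orderOf_dvd_of_pow_eq_one hk))
  unfold az
  congr 1
  refine finsum_mem_congr rfl fun v hv => ?_
  congr 1
  have hc : v * z = z * v := by
    have h : v ∈ Subgroup.centralizer ({z} : Set G) := hv.1.2
    rwa [Subgroup.mem_centralizer_singleton_iff] at h
  have hc' : z ^ i * v = v * z ^ i := ((show Commute v z from hc).pow_right i).eq.symm
  have hPE : PEl 2 (z ^ i) := ⟨k, by rw [← pow_mul, mul_comm, pow_mul, hk, one_pow]⟩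
  have h := GP4 G m hm ψ hψ (z ^ i) v hc' hPE hv.2 s hs1
  rw [hpow] at h
  exact h.symm

end Pool.Agent.LE
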