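import Mathlib

/-!
# MP_baa4d7_al, project NA: a cyclic subgroup of small index in a `p`-group, `p` odd

`y ^ |D : ⟨y⟩|` is in the centre of the `p`-group `D`.
-/

set_option autoImplicit false

namespace Pool.Agent.NA

/-- Arithmetic: `s ^ (p ^ k) = 1` modulo `p ^ m` gives `p ^ k (s - 1) = 0` modulo `p ^ m`, `p` odd. -/
theorem CYC_lte (p : ℕ) (hp : p.Prime) (hp2 : p ≠ 2) (s : ℤ) (k m : ℕ) (h : (p : ℤ) ^ m ∣ s ^ p ^ k - 1) :
    (p : ℤ) ^ m ∣ (p : ℤ) ^ k * (s - 1) := by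
  rcases Nat.eq_zero_or_pos m with hm | hm
  · subst hm
    simp
  have hpf : Fact p.Prime := ⟨hp⟩
  have h1 : (p : ℤ) ∣ s ^ p ^ k - 1 := (dvd_pow_self _ hm.ne').trans h
  have h2 : (p : ℤ) ∣ s - 1 := by
    have h3 : ((s ^ p ^ k - 1 : ℤ) : ZMod p) = 0 := (ZMod.intCast_zmod_eq_zero_iff_dvd _ _).2 h1
    have h4 : ((s - 1 : ℤ) : ZMod p) = 0 := by
      push_cast at h3 ⊢
      have h5 : ((s : ZMod p)) ^ p ^ k = s := by
        rw [ZMod.pow_card_pow]
      rw [h5] at h3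
      exact h3
    exact (ZMod.intCast_zmod_eq_zero_iff_dvd _ _).1 h4
  have hodd : Odd p := hp.odd_of_ne_two hp2
  have hs : ¬ (p : ℤ) ∣ s := by
    intro h3
    have h4 : (p : ℤ) ∣ 1 := by
      have := dvd_sub h3 h2
      simpa using this
    exact hp.one_lt.ne' (by exact_mod_cast Int.eq_one_of_dvd_one (by positivity) h4)
  have h6 := Int.emultiplicity_pow_sub_pow hp hodd (x := s) (y := 1) h2 hs (p ^ k)
  rw [one_pow] at h6
  have h7 : (m : ℕ∞) ≤ emultiplicity (p : ℤ) (s ^ p ^ k - 1) := le_emultiplicity_of_pow_dvd h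
  rw [h6] at h7
  have h8 : emultiplicity p (p ^ k) = k := emultiplicity_pow_self_of_prime hp.prime k
  rw [h8] at h7
  apply pow_dvd_of_le_emultiplicity
  rw [emultiplicity_mul (Nat.prime_iff_prime_int.1 hp), emultiplicity_pow_self_of_prime (Nat.prime_iff_prime_int.1 hp), add_comm]
  exact h7

/-- In a cyclic group an element whose order divides `|y| / r`, `r ∣ |y|`, is a power of `y ^ r`. -/
theorem CYC_cyc {D : Type} [Group D] [Finite D] (y u : D) (hu : u ∈ Subgroup.zpowers y) (r : ℕ) (h : u ^ (orderOf y / Nat.gcd (orderOf y) r) = 1) :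
    u ∈ Subgroup.zpowers (y ^ r) := by
  obtain ⟨m, hm⟩ := (Submonoid.mem_powers_iff _ _).1 (mem_powers_iff_mem_zpowers.2 hu)
  have ho : 0 < orderOf y := orderOf_pos y
  have hg : 0 < Nat.gcd (orderOf y) r := Nat.gcd_pos_of_pos_left _ ho
  have h1 : orderOf y ∣ m * (orderOf y / Nat.gcd (orderOf y) r) := by
    apply orderOf_dvd_of_pow_eq_one
    rw [pow_mul, hm, h]
  have h2 : Nat.gcd (orderOf y) r ∣ m := by
    have h3 : orderOf y = (orderOf y / Nat.gcd (orderOf y) r) * Nat.gcd (orderOf y) r :=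
      (Nat.div_mul_cancel (Nat.gcd_dvd_left _ _)).symm
    have h4 : 0 < orderOf y / Nat.gcd (orderOf y) r := Nat.div_pos (Nat.le_of_dvd ho (Nat.gcd_dvd_left _ _)) hg
    have h5 : (orderOf y / Nat.gcd (orderOf y) r) * Nat.gcd (orderOf y) r ∣ (orderOf y / Nat.gcd (orderOf y) r) * m := by
      rw [← h3, mul_comm]
      exact h1
    exact Nat.dvd_of_mul_dvd_mul_left h4 h5
  obtain ⟨w, hw⟩ := h2
  have h6 : y ^ (Nat.gcd (orderOf y) r) ∈ Subgroup.zpowers (y ^ r) := by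
    rw [Subgroup.mem_zpowers_iff]
    refine ⟨Nat.gcdB (orderOf y) r, ?_⟩
    have h7 : y ^ ((Nat.gcd (orderOf y) r : ℕ) : ℤ) = y ^ ((orderOf y : ℤ) * Nat.gcdA (orderOf y) r + (r : ℤ) * Nat.gcdB (orderOf y) r) := by
      rw [Nat.gcd_eq_gcd_ab]
    rw [zpow_add, zpow_mul, zpow_mul, zpow_natCast, zpow_natCast, pow_orderOf_eq_one, one_zpow, one_mul, zpow_natCast] at h7
    exact h7.symm
  rw [← hm, hw, pow_mul]
  exact Subgroup.pow_mem _ h6 w

/-- `y ^ |D : ⟨y⟩|` is central. -/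
theorem CYC {D : Type} [Group D] [Finite D] (p : ℕ) (hp : p.Prime) (hp2 : p ≠ 2) (hD : IsPGroup p D) (y : D) :
    y ^ (Subgroup.zpowers y).index ∈ Subgroup.center D := by
  classical
  have hpf : Fact p.Prime := ⟨hp⟩
  obtain ⟨L, hL⟩ : ∃ L : Subgroup D, L = Subgroup.normalClosure {y} := ⟨_, rfl⟩
  have hLn : L.Normal := by
    rw [hL]
    infer_instance
  have hyL : y ∈ L := by
    rw [hL]
    exact Subgroup.subset_normalClosure (Set.mem_singleton y)
  have hzL : Subgroup.zpowers y ≤ L := by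
    rw [Subgroup.zpowers_le]
    exact hyL
  obtain ⟨r, hr⟩ : ∃ r : ℕ, r = (Subgroup.zpowers y).relIndex L := ⟨_, rfl⟩
  have hidx : (Subgroup.zpowers y).index = r * L.index := by
    rw [hr, Subgroup.relIndex_mul_index hzL]
  obtain ⟨k, hk⟩ : ∃ k : ℕ, L.index = p ^ k := hD.index L
  -- conjugates
  have hcj : ∀ g : D, g * y ^ r * g⁻¹ ∈ Subgroup.zpowers (y ^ r) := by
    intro g
    have hy' : g * y * g⁻¹ ∈ L := hLn.conj_mem y hyL g
    obtain ⟨y', hy'e⟩ : ∃ y' : D, y' = g * y * g⁻¹ := ⟨_, rfl⟩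
    have hzy' : Subgroup.zpowers y' ≤ L := by
      rw [Subgroup.zpowers_le, hy'e]
      exact hy'
    have ho : orderOf y' = orderOf y := by
      rw [hy'e]
      exact orderOf_injective (MulAut.conj g).toMonoidHom (MulAut.conj g).injective y
    have h1 : y' ^ r = g * y ^ r * g⁻¹ := by
      rw [hy'e, conj_pow]
    have h2 : y' ^ r ∈ Subgroup.zpowers y := by
      obtain ⟨i, hi⟩ : ∃ i : ℕ, i = (Subgroup.zpowers y).relIndex (Subgroup.zpowers y') := ⟨_, rfl⟩
      have hr0 : (Subgroup.zpowers y).relIndex L ≠ 0 := Subgroup.index_ne_zero_of_finite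
      have h3 : i ≤ r := by
        rw [hi, hr]
        exact Subgroup.relIndex_le_of_le_right hzy' hr0
      obtain ⟨a, ha⟩ : ∃ a : ℕ, i = p ^ a := by
        rw [hi]
        exact (hD.to_subgroup (Subgroup.zpowers y')).index _
      obtain ⟨b, hb⟩ : ∃ b : ℕ, r = p ^ b := by
        rw [hr]
        exact (hD.to_subgroup L).index _
      have h4 : i ∣ r := by
        rw [ha, hb] at h3 ⊢
        exact pow_dvd_pow p ((Nat.pow_le_pow_iff_right hp.one_lt).1 h3)
      have h5 : y' ^ i ∈ Subgroup.zpowers y := by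
        have h6 := Subgroup.pow_index_mem ((Subgroup.zpowers y).subgroupOf (Subgroup.zpowers y'))
          (⟨y', Subgroup.mem_zpowers y'⟩ : Subgroup.zpowers y')
        rw [Subgroup.mem_subgroupOf] at h6
        rw [hi]
        exact h6
      obtain ⟨w, hw⟩ := h4
      rw [hw, pow_mul]
      exact Subgroup.pow_mem _ h5 w
    rw [← h1]
    apply CYC_cyc y _ h2 r
    rw [← pow_mul]
    apply orderOf_dvd_iff_pow_eq_one.1
    rw [ho]
    obtain ⟨w, hw⟩ := Nat.gcd_dvd_right (orderOf y) r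
    have h7 : orderOf y = (orderOf y / Nat.gcd (orderOf y) r) * Nat.gcd (orderOf y) r :=
      (Nat.div_mul_cancel (Nat.gcd_dvd_left _ _)).symm
    refine ⟨w, ?_⟩
    calc r * (orderOf y / Nat.gcd (orderOf y) r) = (Nat.gcd (orderOf y) r * w) * (orderOf y / Nat.gcd (orderOf y) r) := by rw [← hw]
      _ = ((orderOf y / Nat.gcd (orderOf y) r) * Nat.gcd (orderOf y) r) * w := by ring
      _ = orderOf y * w := by rw [← h7]
  obtain ⟨x, hx⟩ : ∃ x : D, x = y ^ r := ⟨_, rfl⟩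
  rw [← hx] at hcj
  have hxy : Subgroup.zpowers x ≤ Subgroup.zpowers y := by
    rw [Subgroup.zpowers_le, hx]
    exact Subgroup.pow_mem _ (Subgroup.mem_zpowers y) r
  have hLx : ∀ l ∈ L, l * x = x * l := by
    have h1 : L ≤ Subgroup.centralizer {x} := by
      rw [hL]
      unfold Subgroup.normalClosure
      rw [Subgroup.closure_le]
      intro c hc
      obtain ⟨a, ha, hac⟩ := Group.mem_conjugatesOfSet_iff.1 hc
      rw [Set.mem_singleton_iff] at ha
      subst ha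
      obtain ⟨g, hg⟩ := isConj_iff.1 hac
      rw [SetLike.mem_coe, Subgroup.mem_centralizer_singleton_iff]
      have h2 : g⁻¹ * x * g ∈ Subgroup.zpowers a := by
        have := hcj g⁻¹
        rw [inv_inv] at this
        exact hxy this
      obtain ⟨j, hj⟩ := Subgroup.mem_zpowers_iff.1 h2
      have h3 : a * (g⁻¹ * x * g) = (g⁻¹ * x * g) * a := by
        rw [← hj]
        exact ((Commute.refl a).zpow_right j).eq
      have h4 : x = g * (g⁻¹ * x * g) * g⁻¹ := by group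
      rw [← hg]
      calc g * a * g⁻¹ * x = g * (a * (g⁻¹ * x * g)) * g⁻¹ := by group
        _ = g * ((g⁻¹ * x * g) * a) * g⁻¹ := by rw [h3]
        _ = x * (g * a * g⁻¹) := by group
    intro l hl
    exact Subgroup.mem_centralizer_singleton_iff.1 (h1 hl)
  have hyx : y ^ (Subgroup.zpowers y).index = x ^ p ^ k := by
    rw [hidx, hk, pow_mul, hx]
  rw [hyx, Subgroup.mem_center_iff]
  intro g
  obtain ⟨s, hs⟩ := Subgroup.mem_zpowers_iff.1 (hcj g)
  have hpow : ∀ j : ℕ, g ^ j * x * (g ^ j)⁻¹ = x ^ (s ^ j) := by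
    intro j
    induction j with
    | zero => simp
    | succ j ih =>
      calc g ^ (j + 1) * x * (g ^ (j + 1))⁻¹ = g * (g ^ j * x * (g ^ j)⁻¹) * g⁻¹ := by
            rw [pow_succ']
            group
        _ = g * x ^ (s ^ j) * g⁻¹ := by rw [ih]
        _ = (g * x * g⁻¹) ^ (s ^ j) := by rw [conj_zpow]
        _ = x ^ (s ^ (j + 1)) := by rw [← hs, ← zpow_mul, pow_succ']
  have hgL : g ^ p ^ k ∈ L := by
    rw [← hk]
    exact Subgroup.pow_index_mem L g
  have h8 : x ^ (s ^ p ^ k - 1) = 1 := by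
    rw [zpow_sub, zpow_one, ← hpow, hLx _ hgL]
    group
  obtain ⟨m, hm⟩ : ∃ m : ℕ, orderOf x = p ^ m := IsPGroup.iff_orderOf.1 hD x
  have h9 : (p : ℤ) ^ m ∣ s ^ p ^ k - 1 := by
    have := orderOf_dvd_iff_zpow_eq_one.2 h8
    rw [hm] at this
    exact_mod_cast this
  have h10 := CYC_lte p hp hp2 s k m h9
  have h11 : x ^ ((p : ℤ) ^ k * (s - 1)) = 1 := by
    apply orderOf_dvd_iff_zpow_eq_one.1
    rw [hm]
    exact_mod_cast h10
  have h12 : g * x ^ p ^ k * g⁻¹ = x ^ p ^ k := by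
    have h13 : g * x ^ p ^ k * g⁻¹ = (x ^ s) ^ p ^ k := by
      rw [hs, conj_pow]
    rw [h13, ← zpow_natCast, ← zpow_mul, ← zpow_natCast]
    have h14 : s * ((p ^ k : ℕ) : ℤ) = (p : ℤ) ^ k * (s - 1) + ((p ^ k : ℕ) : ℤ) := by
      push_cast
      ring
    rw [h14, zpow_add, h11, one_mul]
  calc g * x ^ p ^ k = (g * x ^ p ^ k * g⁻¹) * g := by group
    _ = x ^ p ^ k * g := by rw [h12]

/-- The form for a subgroup `D` of `G`: there is a central element `z` of `D` with `|z| |D : ⟨y⟩| ≥ |y|`. -/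
theorem CYC_sub {G : Type} [Group G] [Finite G] (D : Subgroup G) (p : ℕ) (hp : p.Prime) (hp2 : p ≠ 2) (hD : IsPGroup p D) (y : G) (hy : y ∈ D)
    (Q : ℕ) (hQ : Nat.card D = Q * orderOf y) : y ^ Q ∈ D ∧ (∀ d ∈ D, d * y ^ Q = y ^ Q * d) ∧ orderOf y ≤ Q * orderOf (y ^ Q) := by
  have h1 := CYC p hp hp2 hD (⟨y, hy⟩ : D)
  have h2 : (Subgroup.zpowers (⟨y, hy⟩ : D)).index = Q := by
    have h3 := Subgroup.card_mul_index (Subgroup.zpowers (⟨y, hy⟩ : D))
    rw [Nat.card_zpowers, Subgroup.orderOf_mk, hQ, mul_comm] at h3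
    exact Nat.eq_of_mul_eq_mul_right (orderOf_pos y) h3
  rw [h2, Subgroup.mem_center_iff] at h1
  refine ⟨Subgroup.pow_mem _ hy Q, fun d hd => ?_, ?_⟩
  · have := h1 ⟨d, hd⟩
    have := congrArg Subtype.val this
    simpa using this
  · have hQ0 : 0 < Q := by
      rcases Nat.eq_zero_or_pos Q with h | h
      · rw [h, zero_mul] at hQ
        have : 0 < Nat.card D := Nat.card_pos
        omega
      · exact h
    apply Nat.le_of_dvd (Nat.mul_pos hQ0 (orderOf_pos _))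
    apply orderOf_dvd_of_pow_eq_one
    rw [pow_mul, pow_orderOf_eq_one]

/-- The central element from an element `y` of large order. -/
theorem CYC_num {G : Type} [Group G] [Finite G] (D : Subgroup G) (p : ℕ) (hp : p.Prime) (hp2 : p ≠ 2) (hD : IsPGroup p D) (y : G) (hy : y ∈ D)
    (w : ℕ) (h : w * Nat.card D ^ 7 ≤ orderOf y ^ 8) :
    ∃ z ∈ D, (∀ d ∈ D, d * z = z * d) ∧ w * Nat.card D ^ 3 ≤ orderOf z ^ 4 := by
  obtain ⟨Q, hQ⟩ : ∃ Q : ℕ, Nat.card D = Q * orderOf y := by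
    have h1 : orderOf y ∣ Nat.card D := by
      have := orderOf_dvd_natCard (⟨y, hy⟩ : D)
      rwa [Subgroup.orderOf_mk] at this
    obtain ⟨Q, hQ⟩ := h1
    exact ⟨Q, by rw [hQ, mul_comm]⟩
  obtain ⟨h1, h2, h3⟩ := CYC_sub D p hp hp2 hD y hy Q hQ
  refine ⟨y ^ Q, h1, h2, ?_⟩
  obtain ⟨a, ha⟩ : ∃ a : ℕ, a = orderOf y := ⟨_, rfl⟩
  obtain ⟨b, hb⟩ : ∃ b : ℕ, b = orderOf (y ^ Q) := ⟨_, rfl⟩
  rw [← ha] at h hQ h3
  rw [← hb] at h3
  rw [← hb, hQ]
  have ha0 : 0 < a := by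
    rw [ha]
    exact orderOf_pos y
  have hQ0 : 0 < Q := by
    rcases Nat.eq_zero_or_pos Q with h | h
    · rw [h, zero_mul] at hQ
      have : 0 < Nat.card D := Nat.card_pos
      omega
    · exact h
  rw [hQ] at h
  have h4 : w * Q ^ 7 ≤ a := by
    have h5 : w * Q ^ 7 * a ^ 7 ≤ a * a ^ 7 := by
      calc w * Q ^ 7 * a ^ 7 = w * (Q * a) ^ 7 := by ring
        _ ≤ a ^ 8 := h
        _ = a * a ^ 7 := by ring
    exact Nat.le_of_mul_le_mul_right h5 (by positivity)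
  have h6 : w * (Q * a) ^ 3 * Q ^ 4 ≤ b ^ 4 * Q ^ 4 := by
    calc w * (Q * a) ^ 3 * Q ^ 4 = (w * Q ^ 7) * a ^ 3 := by ring
      _ ≤ a * a ^ 3 := Nat.mul_le_mul_right _ h4
      _ = a ^ 4 := by ring
      _ ≤ (Q * b) ^ 4 := Nat.pow_le_pow_left h3 4
      _ = b ^ 4 * Q ^ 4 := by ring
  exact Nat.le_of_mul_le_mul_right h6 (by positivity)

end Pool.Agent.NA
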