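import Pool.Agent.helper70.LZ.SpecW
import Pool.Agent.helper26.CNG.Spec

/-!
# MP_baa4d7_al, project NA: the bound for `p = 2` (modulus `4`): definitions
-/

set_option autoImplicit false

namespace Pool.Agent.LE

open Pool.Agent.helper58.DC Pool.Agent.DI Pool.Agent.GR Pool.Agent.OB Pool.Agent.DR Pool.Agent.FI Pool.Agent.FI3 Pool.Agent.FI4

/-- The exponent of a Galois automorphism which fixes the roots of unity of odd order and the fourth roots of unity, and generates the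
group of these automorphisms of the field of the `|G|_2`-th roots of unity. -/
structure Gm4 (n m : ℕ) : Prop where
  cop : m.Coprime n
  reg : ∀ d : ℕ, d ∣ n → ¬ 2 ∣ d → m ≡ 1 [MOD d]
  one : 2 ∣ n → m ≡ 1 [MOD 2]
  gen : ∀ s : ℕ, s ≡ 1 [MOD 4] → ∃ j : ℕ, ∀ k : ℕ, 2 ^ k ∣ n → m ^ j ≡ s [MOD 2 ^ k]

theorem Gm4.toGq {n m : ℕ} (h : Gm4 n m) : Gq 2 n m := ⟨h.cop, h.reg, h.one⟩

/-- The condition on the elements of the stabiliser `L`. -/
def LW4 {G : Type} [Group G] (M : Ideal (integralClosure ℤ ℂ)) (z : G) (η₀ : G → ℂ) (g : G) : Prop :=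
  ∃ s : ℕ, s ≡ 1 [MOD 4] ∧ g * z * g⁻¹ = z ^ s ∧ SB M (Cz (⊤ : Subgroup G) z) (cjF g η₀) η₀

theorem LW4.toLW {G : Type} [Group G] {M : Ideal (integralClosure ℤ ℂ)} {z : G} {η₀ : G → ℂ} {g : G} (h : LW4 M z η₀ g) :
    LW 2 M z η₀ g := by
  obtain ⟨s, h1, h2, h3⟩ := h
  exact ⟨s, h1.of_dvd (by norm_num), h2, h3⟩

end Pool.Agent.LE
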