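import Mathlib

/-!
# MP_baa4d7_al, project NA: the intersection of a central cyclic subgroup with the commutator subgroup of a `p`-group

`u ∈ ⟨z⟩ ∩ [P, P]`, `z` central: `(orderOf u) ^ 2 ≤ |P : ⟨z⟩|`. A linear character of a normal subgroup `Z` which is invariant under
the `p`-group `H` extends to a subgroup `A` with `|H : A| ^ 2 ≤ |H : Z|` (polarisation); transfer to `A`.
-/

set_option autoImplicit false

namespace Pool.Agent.NA

/-- `f` is a linear character of `Z`. -/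
structure Lin {G : Type} [Group G] (Z : Subgroup G) (f : G → ℂ) : Prop where
  one : f 1 = 1
  mul : ∀ a ∈ Z, ∀ b ∈ Z, f (a * b) = f a * f b

section

variable {G : Type} [Group G]

theorem Lin.inv {Z : Subgroup G} {f : G → ℂ} (h : Lin Z f) {a : G} (ha : a ∈ Z) : f a * f a⁻¹ = 1 := by
  rw [← h.mul a ha a⁻¹ (Z.inv_mem ha), mul_inv_cancel, h.one]

theorem Lin.ne {Z : Subgroup G} {f : G → ℂ} (h : Lin Z f) {a : G} (ha : a ∈ Z) : f a ≠ 0 := by
  intro h1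
  have h2 := h.inv ha
  rw [h1, zero_mul] at h2
  exact zero_ne_one h2

theorem Lin.pow {Z : Subgroup G} {f : G → ℂ} (h : Lin Z f) {a : G} (ha : a ∈ Z) (n : ℕ) : f (a ^ n) = f a ^ n := by
  induction n with
  | zero => rw [pow_zero, pow_zero, h.one]
  | succ n ih => rw [pow_succ, h.mul _ (Z.pow_mem ha n) _ ha, ih, pow_succ]

theorem Lin.zpow {Z : Subgroup G} {f : G → ℂ} (h : Lin Z f) {a : G} (ha : a ∈ Z) (n : ℤ) : f (a ^ n) = f a ^ n := by
  obtain ⟨m, rfl | rfl⟩ := n.eq_nat_or_neg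
  · rw [zpow_natCast, zpow_natCast, h.pow ha]
  · rw [zpow_neg, zpow_neg, zpow_natCast, zpow_natCast]
    have h1 := h.inv (Z.pow_mem ha m)
    rw [h.pow ha m] at h1
    exact (eq_inv_of_mul_eq_one_right h1)

/-- The subgroup `Z ⟨u⟩`, `u` normalises `Z`. -/
def ZU (Z : Subgroup G) (u : G) (h : ∀ z ∈ Z, ∀ i : ℤ, u ^ i * z * (u ^ i)⁻¹ ∈ Z) : Subgroup G where
  carrier := {w | ∃ z ∈ Z, ∃ i : ℤ, w = z * u ^ i}
  mul_mem' := by
    rintro a b ⟨z, hz, i, rfl⟩ ⟨z', hz', j, rfl⟩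
    refine ⟨z * (u ^ i * z' * (u ^ i)⁻¹), Z.mul_mem hz (h z' hz' i), i + j, ?_⟩
    rw [zpow_add]
    group
  one_mem' := ⟨1, Z.one_mem, 0, by simp⟩
  inv_mem' := by
    rintro a ⟨z, hz, i, rfl⟩
    refine ⟨u ^ (-i) * z⁻¹ * (u ^ (-i))⁻¹, h _ (Z.inv_mem hz) (-i), -i, ?_⟩
    group

/-- Extension of a linear character to `Z ⟨u⟩`, `u ^ p ∈ Z`. -/
theorem POL_ext (p : ℕ) (hp : p.Prime) (Z : Subgroup G) (f : G → ℂ) (hf : Lin Z f) (u : G)
    (h : ∀ z ∈ Z, ∀ i : ℤ, u ^ i * z * (u ^ i)⁻¹ ∈ Z) (hinv : ∀ z ∈ Z, f (u * z * u⁻¹) = f z) (hu : u ∉ Z) (hup : u ^ p ∈ Z) :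
    ∃ (f₁ : G → ℂ) (ξ : ℂ), Lin (ZU Z u h) f₁ ∧ (∀ z ∈ Z, f₁ z = f z) ∧ f₁ u = ξ ∧ ξ ^ p = f (u ^ p) ∧ ξ ≠ 0 ∧
      ∀ z ∈ Z, ∀ i : ℤ, f₁ (z * u ^ i) = f z * ξ ^ i := by
  classical
  obtain ⟨ξ, hξ⟩ : ∃ ξ : ℂ, ξ ^ p = f (u ^ p) := IsAlgClosed.exists_pow_nat_eq _ hp.pos
  have hξ0 : ξ ≠ 0 := by
    intro h0
    rw [h0, zero_pow hp.ne_zero] at hξ
    exact hf.ne hup hξ.symm
  have hdiv : ∀ k : ℤ, u ^ k ∈ Z → (p : ℤ) ∣ k := by
    intro k hk
    by_contra hn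
    apply hu
    have hc : IsCoprime (p : ℤ) k := (Nat.prime_iff_prime_int.1 hp).coprime_iff_not_dvd.2 hn
    obtain ⟨a, b, hab⟩ := hc
    have h1 : u = (u ^ p) ^ a * (u ^ k) ^ b := by
      rw [← zpow_natCast u p, ← zpow_mul, ← zpow_mul, ← zpow_add]
      have h2 : (p : ℤ) * a + k * b = 1 := by linarith
      rw [h2, zpow_one]
    rw [h1]
    exact Z.mul_mem (Z.zpow_mem hup a) (Z.zpow_mem hk b)
  have hk : ∀ k : ℤ, u ^ k ∈ Z → f (u ^ k) = ξ ^ k := by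
    intro k hk
    obtain ⟨t, rfl⟩ := hdiv k hk
    rw [zpow_mul, zpow_natCast, hf.zpow hup, ← hξ, zpow_mul, zpow_natCast]
  have hwd : ∀ z ∈ Z, ∀ z' ∈ Z, ∀ i j : ℤ, z * u ^ i = z' * u ^ j → f z * ξ ^ i = f z' * ξ ^ j := by
    intro z hz z' hz' i j e
    have h1 : u ^ (i - j) = z⁻¹ * z' := by
      have h2 : u ^ i = z⁻¹ * (z' * u ^ j) := by rw [← e]; group
      rw [zpow_sub, h2]
      group
    have h2 : u ^ (i - j) ∈ Z := by
      rw [h1]
      exact Z.mul_mem (Z.inv_mem hz) hz'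
    have h3 : z' = z * u ^ (i - j) := by rw [h1]; group
    have h4 : f z' = f z * ξ ^ (i - j) := by
      rw [h3, hf.mul z hz _ h2, hk _ h2]
    rw [h4, zpow_sub₀ hξ0]
    field_simp
  obtain ⟨f₁, hf₁⟩ : ∃ f₁ : G → ℂ, ∀ z ∈ Z, ∀ i : ℤ, f₁ (z * u ^ i) = f z * ξ ^ i := by
    refine ⟨fun w => if hw : ∃ z, z ∈ Z ∧ ∃ i : ℤ, w = z * u ^ i then f hw.choose * ξ ^ hw.choose_spec.2.choose else 0, ?_⟩
    intro z hz i
    have hw : ∃ z', z' ∈ Z ∧ ∃ j : ℤ, z * u ^ i = z' * u ^ j := ⟨z, hz, i, rfl⟩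
    show (if hw : ∃ z', z' ∈ Z ∧ ∃ j : ℤ, z * u ^ i = z' * u ^ j then f hw.choose * ξ ^ hw.choose_spec.2.choose else 0) = _
    rw [dif_pos hw]
    exact (hwd z hz _ hw.choose_spec.1 i _ hw.choose_spec.2.choose_spec).symm
  have hinvi : ∀ z ∈ Z, ∀ i : ℤ, f (u ^ i * z * (u ^ i)⁻¹) = f z := by
    have h1 : ∀ z ∈ Z, ∀ n : ℕ, f (u ^ n * z * (u ^ n)⁻¹) = f z := by
      intro z hz n
      induction n with
      | zero => simp
      | succ n ih =>
        have h2 : u ^ (n + 1) * z * (u ^ (n + 1))⁻¹ = u * (u ^ n * z * (u ^ n)⁻¹) * u⁻¹ := by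
          rw [pow_succ']
          group
        have h3 := h z hz n
        rw [zpow_natCast] at h3
        rw [h2, hinv _ h3, ih]
    intro z hz i
    obtain ⟨n, rfl | rfl⟩ := i.eq_nat_or_neg
    · rw [zpow_natCast]
      exact h1 z hz n
    · have h2 := h z hz (-(n : ℤ))
      have h3 := h1 _ h2 n
      rw [← h3]
      congr 1
      rw [← zpow_natCast u n]
      group
  refine ⟨f₁, ξ, ⟨?_, ?_⟩, ?_, ?_, hξ, hξ0, hf₁⟩
  · have h1 := hf₁ 1 Z.one_mem 0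
    simpa [hf.one] using h1
  · rintro a ⟨z, hz, i, rfl⟩ b ⟨z', hz', j, rfl⟩
    have h1 : z * u ^ i * (z' * u ^ j) = (z * (u ^ i * z' * (u ^ i)⁻¹)) * u ^ (i + j) := by
      rw [zpow_add]
      group
    rw [h1, hf₁ _ (Z.mul_mem hz (h z' hz' i)), hf₁ z hz, hf₁ z' hz', hf.mul z hz _ (h z' hz' i), hinvi z' hz', zpow_add₀ hξ0]
    ring
  · intro z hz
    have h1 := hf₁ z hz 0
    simpa using h1
  · have h1 := hf₁ 1 Z.one_mem 1
    simpa [hf.one] using h1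

/-- An element `u` outside of `Z` which is central of order `p` modulo `Z`. -/
theorem POL_u (p : ℕ) (hp : p.Prime) [Finite G] (H Z : Subgroup G) (hH : IsPGroup p H) (hZH : Z ≤ H)
    (hn : ∀ h ∈ H, ∀ z ∈ Z, h * z * h⁻¹ ∈ Z) (hne : Z ≠ H) :
    ∃ u ∈ H, u ∉ Z ∧ u ^ p ∈ Z ∧ ∀ h ∈ H, h * u * h⁻¹ * u⁻¹ ∈ Z := by
  classical
  have hpf : Fact p.Prime := ⟨hp⟩
  have hN : (Z.subgroupOf H).Normal := ⟨fun z hz h => by
    rw [Subgroup.mem_subgroupOf] at hz ⊢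
    exact hn h.1 h.2 z.1 hz⟩
  have hQ : IsPGroup p (H ⧸ Z.subgroupOf H) := hH.to_quotient _
  have hnt : Nontrivial (H ⧸ Z.subgroupOf H) := by
    rw [QuotientGroup.nontrivial_iff]
    intro h1
    apply hne
    apply le_antisymm hZH
    rwa [Subgroup.subgroupOf_eq_top] at h1
  have hc := hQ.center_nontrivial
  have hcp : IsPGroup p (Subgroup.center (H ⧸ Z.subgroupOf H)) := hQ.to_subgroup _
  obtain ⟨k, hk0, hk⟩ := hcp.nontrivial_iff_card.1 hc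
  have hdv : p ∣ Nat.card (Subgroup.center (H ⧸ Z.subgroupOf H)) := by
    rw [hk]
    exact dvd_pow_self p hk0.ne'
  obtain ⟨x, hx⟩ := exists_prime_orderOf_dvd_card' p hdv
  obtain ⟨u, hu⟩ := QuotientGroup.mk_surjective x.1
  refine ⟨u.1, u.2, ?_, ?_, ?_⟩
  · intro h1
    have h2 : x.1 = 1 := by
      rw [← hu, QuotientGroup.eq_one_iff, Subgroup.mem_subgroupOf]
      exact h1
    have h3 : x = 1 := Subtype.ext h2
    rw [h3, orderOf_one] at hx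
    exact hp.one_lt.ne hx
  · have h1 : x.1 ^ p = 1 := by
      have := pow_orderOf_eq_one x
      rw [hx] at this
      exact congrArg Subtype.val this
    rw [← hu, ← QuotientGroup.mk_pow, QuotientGroup.eq_one_iff, Subgroup.mem_subgroupOf] at h1
    exact h1
  · intro h hh
    have h1 := (Subgroup.mem_center_iff.1 x.2) (QuotientGroup.mk (⟨h, hh⟩ : H))
    rw [← hu, ← QuotientGroup.mk_mul, ← QuotientGroup.mk_mul] at h1
    have h2 := QuotientGroup.eq.1 h1.symm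
    rw [Subgroup.mem_subgroupOf] at h2
    have h3 : (u.1 * h)⁻¹ * (h * u.1) ∈ Z := h2
    have h4 := hn _ (H.mul_mem u.2 hh) _ h3
    have h5 : u.1 * h * ((u.1 * h)⁻¹ * (h * u.1)) * (u.1 * h)⁻¹ = h * u.1 * h⁻¹ * u.1⁻¹ := by group
    rw [h5] at h4
    exact h4

/-- Polarisation. -/
theorem POL (p : ℕ) (hp : p.Prime) [Finite G] : ∀ (n : ℕ) (H Z : Subgroup G) (f : G → ℂ), IsPGroup p H → Z ≤ H →
    (∀ h ∈ H, ∀ z ∈ Z, h * z * h⁻¹ ∈ Z ∧ f (h * z * h⁻¹) = f z) → Lin Z f → Z.relIndex H = n →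
    ∃ (A : Subgroup G) (g : G → ℂ), Z ≤ A ∧ A ≤ H ∧ Lin A g ∧ (∀ z ∈ Z, g z = f z) ∧ A.relIndex H ^ 2 ≤ n := by
  intro n
  induction n using Nat.strong_induction_on with
  | _ n ih =>
  intro H Z f hH hZH hinv hf hn
  have hpf : Fact p.Prime := ⟨hp⟩
  have hn1 : 1 ≤ n := by
    rw [← hn]
    exact Nat.one_le_iff_ne_zero.2 Subgroup.index_ne_zero_of_finite
  by_cases hne : Z = H
  · subst hne
    refine ⟨Z, f, le_rfl, le_rfl, hf, fun _ _ => rfl, ?_⟩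
    rw [Subgroup.relIndex_self]
    omega
  obtain ⟨u, huH, huZ, hup, huc⟩ := POL_u p hp H Z hH hZH (fun h hh z hz => (hinv h hh z hz).1) hne
  have hnu : ∀ z ∈ Z, ∀ i : ℤ, u ^ i * z * (u ^ i)⁻¹ ∈ Z := fun z hz i => (hinv _ (H.zpow_mem huH i) z hz).1
  obtain ⟨f₁, ξ, hf₁, hfZ, hfu, hξ, hξ0, hfz⟩ := POL_ext p hp Z f hf u hnu (fun z hz => (hinv u huH z hz).2) huZ hup
  obtain ⟨W, hW⟩ : ∃ W : Subgroup G, W = ZU Z u hnu := ⟨_, rfl⟩
  rw [← hW] at hf₁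
  have hWmem : ∀ w, w ∈ W ↔ ∃ z ∈ Z, ∃ i : ℤ, w = z * u ^ i := fun w => by
    rw [hW]
    rfl
  have hZW : Z ≤ W := fun z hz => (hWmem z).2 ⟨z, hz, 0, by simp⟩
  have huW : u ∈ W := (hWmem u).2 ⟨1, Z.one_mem, 1, by simp⟩
  have hWH : W ≤ H := by
    intro w hw
    obtain ⟨z, hz, i, rfl⟩ := (hWmem w).1 hw
    exact H.mul_mem (hZH hz) (H.zpow_mem huH i)
  -- the homomorphism
  obtain ⟨c, hc⟩ : ∃ c : G → ℂ, ∀ g, c g = f (g * u * g⁻¹ * u⁻¹) := ⟨_, fun _ => rfl⟩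
  have hcmul : ∀ g ∈ H, ∀ h ∈ H, c (g * h) = c g * c h := by
    intro g hg h hh
    rw [hc, hc, hc]
    have h1 : g * h * u * (g * h)⁻¹ * u⁻¹ = (g * (h * u * h⁻¹ * u⁻¹) * g⁻¹) * (g * u * g⁻¹ * u⁻¹) := by group
    rw [h1, hf.mul _ (hinv g hg _ (huc h hh)).1 _ (huc g hg), (hinv g hg _ (huc h hh)).2, mul_comm]
  have hcone : c 1 = 1 := by
    rw [hc]
    simpa using hf.one
  have hcne : ∀ g ∈ H, c g ≠ 0 := by
    intro g hg
    rw [hc]
    exact hf.ne (huc g hg)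
  have hfgu : ∀ g ∈ H, f₁ (g * u * g⁻¹) = c g * ξ := by
    intro g hg
    have h1 : g * u * g⁻¹ = (g * u * g⁻¹ * u⁻¹) * u ^ (1 : ℤ) := by
      rw [zpow_one]
      group
    rw [h1, hfz _ (huc g hg), zpow_one, hc]
  have hgW : ∀ g ∈ H, g * u * g⁻¹ ∈ W := by
    intro g hg
    exact (hWmem _).2 ⟨g * u * g⁻¹ * u⁻¹, huc g hg, 1, by rw [zpow_one]; group⟩
  have hcp : ∀ g ∈ H, c g ^ p = 1 := by
    intro g hg
    have h1 : (g * u * g⁻¹) ^ p = g * u ^ p * g⁻¹ := conj_pow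
    have h2 : f₁ ((g * u * g⁻¹) ^ p) = f (u ^ p) := by
      rw [h1, hfZ _ (hinv g hg _ hup).1, (hinv g hg _ hup).2]
    rw [hf₁.pow (hgW g hg), hfgu g hg, mul_pow, hξ] at h2
    have h3 := hf.ne hup
    field_simp at h2
    exact h2
  let cH : H →* ℂˣ :=
    { toFun := fun g => Units.mk0 (c g.1) (hcne g.1 g.2)
      map_one' := Units.ext hcone
      map_mul' := fun g h => Units.ext (hcmul g.1 g.2 h.1 h.2) }
  have hcH : ∀ g : H, ((cH g : ℂˣ) : ℂ) = c g.1 := fun _ => rfl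
  obtain ⟨C, hC⟩ : ∃ C : Subgroup G, C = cH.ker.map H.subtype := ⟨_, rfl⟩
  have hCmem : ∀ g, g ∈ C ↔ g ∈ H ∧ c g = 1 := by
    intro g
    rw [hC, Subgroup.mem_map]
    constructor
    · rintro ⟨x, hx, rfl⟩
      refine ⟨x.2, ?_⟩
      rw [MonoidHom.mem_ker] at hx
      have := congrArg Units.val hx
      rw [hcH] at this
      exact this
    · rintro ⟨h1, h2⟩
      refine ⟨⟨g, h1⟩, ?_, rfl⟩
      rw [MonoidHom.mem_ker]
      exact Units.ext h2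
  have hCH : C ≤ H := fun g hg => ((hCmem g).1 hg).1
  have hCi : C.relIndex H ≤ p := by
    have h1 : C.relIndex H = cH.ker.index := by
      unfold Subgroup.relIndex
      rw [hC]
      congr 1
      exact Subgroup.comap_map_eq_self_of_injective H.subtype_injective _
    rw [h1, Subgroup.index_ker]
    have h2 : cH.range ≤ rootsOfUnity p ℂ := by
      rintro x ⟨g, rfl⟩
      rw [mem_rootsOfUnity]
      refine Units.ext ?_
      rw [Units.val_pow_eq_pow_val, hcH]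
      exact hcp g.1 g.2
    have h3 : Nat.card cH.range ≤ Nat.card (rootsOfUnity p ℂ) := Nat.card_le_card_of_injective _ (Subgroup.inclusion_injective h2)
    have : NeZero p := ⟨hp.ne_zero⟩
    exact h3.trans (card_rootsOfUnity ℂ p)
  have hWC : W ≤ C := by
    intro w hw
    obtain ⟨z, hz, i, rfl⟩ := (hWmem w).1 hw
    have hzC : z ∈ C := by
      refine (hCmem z).2 ⟨hZH hz, ?_⟩
      rw [hc]
      have h1 : z * u * z⁻¹ * u⁻¹ = z * (u * z⁻¹ * u⁻¹) := by group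
      rw [h1, hf.mul z hz _ (hinv u huH _ (Z.inv_mem hz)).1, (hinv u huH _ (Z.inv_mem hz)).2, hf.inv hz]
    have huC : u ∈ C := by
      refine (hCmem u).2 ⟨huH, ?_⟩
      rw [hc]
      simpa using hf.one
    exact C.mul_mem hzC (C.zpow_mem huC i)
  have hZWi : p ≤ Z.relIndex W := by
    obtain ⟨k, hk⟩ : ∃ k : ℕ, Z.relIndex W = p ^ k := by
      have h1 : IsPGroup p W := hH.to_le hWH
      exact h1.index _
    have hk0 : k ≠ 0 := by
      intro h0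
      rw [h0, pow_zero, Subgroup.relIndex_eq_one] at hk
      exact huZ (hk huW)
    rw [hk]
    exact Nat.le_self_pow hk0 p
  have hidx : Z.relIndex W * (W.relIndex C * C.relIndex H) = n := by
    rw [Subgroup.relIndex_mul_relIndex W C H hWC hCH, Subgroup.relIndex_mul_relIndex Z W H hZW hWH, hn]
  have hC1 : 1 ≤ C.relIndex H := Nat.one_le_iff_ne_zero.2 Subgroup.index_ne_zero_of_finite
  have hWC1 : 1 ≤ W.relIndex C := Nat.one_le_iff_ne_zero.2 Subgroup.index_ne_zero_of_finite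
  have hlt : W.relIndex C < n := by
    rw [← hidx]
    have h2 : 2 ≤ Z.relIndex W := hp.two_le.trans hZWi
    calc W.relIndex C < 2 * (W.relIndex C * 1) := by omega
      _ ≤ Z.relIndex W * (W.relIndex C * C.relIndex H) := Nat.mul_le_mul h2 (Nat.mul_le_mul_left _ hC1)
  obtain ⟨A, g, hWA, hAC, hg, hgf, hA⟩ := ih (W.relIndex C) hlt C W f₁ (hH.to_le hCH) hWC (by
    intro h hh w hw
    obtain ⟨hhH, hch⟩ := (hCmem h).1 hh
    obtain ⟨z, hz, i, rfl⟩ := (hWmem w).1 hw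
    have h1 : h * (z * u ^ i) * h⁻¹ = (h * z * h⁻¹) * (h * u * h⁻¹) ^ i := by
      rw [conj_zpow]
      group
    have h2 := hinv h hhH z hz
    have h3 := hgW h hhH
    rw [h1]
    refine ⟨W.mul_mem (hZW h2.1) (W.zpow_mem h3 i), ?_⟩
    rw [hf₁.mul _ (hZW h2.1) _ (W.zpow_mem h3 i), hf₁.zpow h3, hfgu h hhH, hch, one_mul, hfZ _ h2.1, h2.2, hfz z hz]) hf₁ rfl
  refine ⟨A, g, hZW.trans hWA, hAC.trans hCH, hg, fun z hz => (hgf z (hZW hz)).trans (hfZ z hz), ?_⟩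
  rw [← Subgroup.relIndex_mul_relIndex A C H hAC hCH, mul_pow, ← hidx]
  calc A.relIndex C ^ 2 * C.relIndex H ^ 2 ≤ W.relIndex C * C.relIndex H ^ 2 := Nat.mul_le_mul_right _ hA
    _ = C.relIndex H * (W.relIndex C * C.relIndex H) := by ring
    _ ≤ Z.relIndex W * (W.relIndex C * C.relIndex H) := Nat.mul_le_mul_right _ (hCi.trans hZWi)

end

/-- The order of an element of `⟨z⟩ ∩ [P, P]`, `z` central. -/
theorem POL_sq {P : Type} [Group P] [Finite P] (p : ℕ) (hp : p.Prime) (hP : IsPGroup p P) (z : P) (hz : z ∈ Subgroup.center P)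
    (u : P) (hu : u ∈ Subgroup.zpowers z) (huc : u ∈ commutator P) : orderOf u ^ 2 ≤ (Subgroup.zpowers z).index := by
  classical
  have hzc : ∀ g : P, g * z = z * g := fun g => (Subgroup.mem_center_iff.1 hz g)
  have hn : 0 < orderOf z := orderOf_pos z
  obtain ⟨ζ, hζ⟩ : ∃ ζ : ℂ, IsPrimitiveRoot ζ (orderOf z) := ⟨_, Complex.isPrimitiveRoot_exp _ hn.ne'⟩
  have hζ0 : ζ ≠ 0 := hζ.ne_zero hn.ne'
  have hwd : ∀ i j : ℤ, z ^ i = z ^ j ↔ ζ ^ i = ζ ^ j := by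
    intro i j
    rw [zpow_eq_zpow_iff_modEq]
    constructor
    · intro h
      have h1 := (Int.modEq_iff_dvd.1 h)
      have h2 : ζ ^ (j - i) = 1 := (hζ.zpow_eq_one_iff_dvd _).2 h1
      rw [zpow_sub₀ hζ0, div_eq_one_iff_eq (zpow_ne_zero _ hζ0)] at h2
      exact h2.symm
    · intro h
      apply Int.modEq_iff_dvd.2
      apply (hζ.zpow_eq_one_iff_dvd _).1
      rw [zpow_sub₀ hζ0, div_eq_one_iff_eq (zpow_ne_zero _ hζ0)]
      exact h.symm
  obtain ⟨f, hf⟩ : ∃ f : P → ℂ, ∀ i : ℤ, f (z ^ i) = ζ ^ i := by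
    refine ⟨fun w => if h : ∃ i : ℤ, w = z ^ i then ζ ^ h.choose else 0, fun i => ?_⟩
    have h : ∃ j : ℤ, z ^ i = z ^ j := ⟨i, rfl⟩
    show (if h : ∃ j : ℤ, z ^ i = z ^ j then ζ ^ h.choose else 0) = _
    rw [dif_pos h]
    exact ((hwd _ _).1 h.choose_spec).symm
  have hL : Lin (Subgroup.zpowers z) f := by
    refine ⟨?_, ?_⟩
    · have := hf 0
      simpa using this
    · intro a ha b hb
      obtain ⟨i, rfl⟩ := Subgroup.mem_zpowers_iff.1 ha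
      obtain ⟨j, rfl⟩ := Subgroup.mem_zpowers_iff.1 hb
      rw [← zpow_add, hf, hf, hf, zpow_add₀ hζ0]
  have hZc : ∀ h : P, ∀ w ∈ Subgroup.zpowers z, h * w * h⁻¹ = w := by
    intro h w hw
    obtain ⟨i, rfl⟩ := Subgroup.mem_zpowers_iff.1 hw
    have h1 : Commute h z := hzc h
    have h2 := (h1.zpow_right i).eq
    rw [h2]
    group
  obtain ⟨A, g, hZA, -, hg, hgf, hA⟩ := POL p hp ((Subgroup.zpowers z).relIndex ⊤) ⊤ (Subgroup.zpowers z) f
    (hP.to_subgroup ⊤) le_top (fun h _ w hw => by rw [hZc h w hw]; exact ⟨hw, rfl⟩) hL rfl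
  rw [Subgroup.relIndex_top_right, Subgroup.relIndex_top_right] at hA
  let φ : A →* ℂˣ :=
    { toFun := fun a => Units.mk0 (g a.1) (hg.ne a.2)
      map_one' := Units.ext hg.one
      map_mul' := fun a b => Units.ext (hg.mul a.1 a.2 b.1 b.2) }
  have hφ : ∀ a : A, ((φ a : ℂˣ) : ℂ) = g a.1 := fun _ => rfl
  have hker : u ∈ (MonoidHom.transfer φ).ker := by
    have h1 : commutator P ≤ (MonoidHom.transfer φ).ker := Abelianization.commutator_subset_ker _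
    exact h1 huc
  rw [MonoidHom.mem_ker] at hker
  have hkey : ∀ (k : ℕ) (g₀ : P), g₀⁻¹ * u ^ k * g₀ ∈ A → g₀⁻¹ * u ^ k * g₀ = u ^ k := by
    intro k g₀ _
    have h1 := hZc g₀⁻¹ (u ^ k) ((Subgroup.zpowers z).pow_mem hu k)
    rwa [inv_inv] at h1
  have h1 := MonoidHom.transfer_eq_pow φ u hkey
  rw [hker] at h1
  have h2 : g (u ^ A.index) = 1 := by
    have h3 := congrArg Units.val h1
    rw [hφ] at h3
    exact h3.symm
  have h3 : u ^ A.index = 1 := by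
    obtain ⟨i, hi⟩ := Subgroup.mem_zpowers_iff.1 ((Subgroup.zpowers z).pow_mem hu A.index)
    rw [hgf _ ((Subgroup.zpowers z).pow_mem hu A.index), ← hi, hf] at h2
    have h4 : z ^ i = z ^ (0 : ℤ) := (hwd i 0).2 (by rw [h2, zpow_zero])
    rw [← hi, h4, zpow_zero]
  have h4 : orderOf u ≤ A.index := Nat.le_of_dvd (Nat.pos_of_ne_zero Subgroup.index_ne_zero_of_finite) (orderOf_dvd_of_pow_eq_one h3)
  exact (Nat.pow_le_pow_left h4 2).trans hA

/-- `z ^ (p ^ (c - 1))` is not in the commutator subgroup if `c + m / 2 ≤ e`. -/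
theorem POL_trf {P : Type} [Group P] [Finite P] (p : ℕ) (hp : p.Prime) (hP : IsPGroup p P) (z : P) (hz : z ∈ Subgroup.center P)
    (e m c : ℕ) (ho : orderOf z = p ^ e) (hc : Nat.card P ≤ p ^ (e + m)) (hc1 : 1 ≤ c) (hcm : c + m / 2 ≤ e) :
    z ^ p ^ (c - 1) ∉ commutator P := by
  intro h
  have h1 := POL_sq p hp hP z hz (z ^ p ^ (c - 1)) (Subgroup.pow_mem _ (Subgroup.mem_zpowers z) _) h
  have h2 : orderOf (z ^ p ^ (c - 1)) = p ^ (e - (c - 1)) := by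
    rw [orderOf_pow, ho]
    have h3 : p ^ e = p ^ (e - (c - 1)) * p ^ (c - 1) := by
      rw [← pow_add]
      congr 1
      omega
    rw [h3, Nat.gcd_eq_right (Dvd.intro_left _ rfl), Nat.mul_div_cancel _ (pow_pos hp.pos _)]
  rw [h2, ← pow_mul] at h1
  have h3 := Subgroup.card_mul_index (Subgroup.zpowers z)
  rw [Nat.card_zpowers, ho] at h3
  have h4 : (Subgroup.zpowers z).index ≤ p ^ m := by
    have h5 : p ^ e * (Subgroup.zpowers z).index ≤ p ^ e * p ^ m := by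
      rw [h3, ← pow_add]
      exact hc
    exact Nat.le_of_mul_le_mul_left h5 (pow_pos hp.pos _)
  have h5 := (Nat.pow_le_pow_iff_right hp.one_lt).1 (h1.trans h4)
  omega

end Pool.Agent.NA
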