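import Pool.Agent.helper37.NA.Spec
import Pool.Agent.helper12.NA.POL

set_option autoImplicit false

namespace Pool.Agent.NAB

open Pool.Agent.helper58.DC Pool.Agent.DI Pool.Agent.GR Pool.Agent.OB Pool.Agent.DR Pool.Agent.FI Pool.Agent.FI3 Pool.Agent.FI4 Pool.Agent.FI4I Pool.Agent.LE Pool.Agent.L5

theorem NTR : NTR_stmt := by
  intro p e m hp hme G _ _ D hD hcard z hz hzc ho
  refine ⟨by omega, z, hz, hzc, ?_⟩
  intro hmem
  have h1 : (⟨z, hz⟩ : D) ∈ Subgroup.center D := by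
    rw [Subgroup.mem_center_iff]
    intro d
    exact Subtype.ext (hzc d d.2).symm
  have ho' : orderOf (⟨z, hz⟩ : D) = p ^ e := by
    rw [← ho]
    exact Subgroup.orderOf_mk z hz
  have h2 := Pool.Agent.NA.POL_trf p hp hD ⟨z, hz⟩ h1 e m (e - m / 2) ho' hcard (by omega) (by omega)
  apply h2
  rw [← Subgroup.map_subtype_commutator] at hmem
  obtain ⟨w, hw, hwe⟩ := Subgroup.mem_map.1 hmem
  have h3 : w = (⟨z, hz⟩ : D) ^ p ^ (e - m / 2 - 1) := Subtype.ext (by simpa using hwe)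
  rw [← h3]
  exact hw

end Pool.Agent.NAB
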