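import Pool.Agent.helper12.NA.DefsP2
import Pool.Agent.helper72.LZ.WL1
import Pool.Agent.helper36.LZ.WFM

/-!
# MP_baa4d7_al, project NA, `p = 2`: the stabiliser and the exponents
-/

set_option autoImplicit false

namespace Pool.Agent.LE

open Pool.Agent.helper58.DC Pool.Agent.DI Pool.Agent.GR Pool.Agent.OB Pool.Agent.DR Pool.Agent.FI Pool.Agent.FI3 Pool.Agent.FI4

theorem WL4_mul {G : Type} [Group G] (M : Ideal (integralClosure ℤ ℂ)) (z : G) (e : ℕ) (hz : orderOf z = 2 ^ e) (η₀ : G → ℂ)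
    (g h : G) (hg : LW4 M z η₀ g) (hh : LW4 M z η₀ h) : LW4 M z η₀ (g * h) := by
  obtain ⟨s, hs, hgz, hgS⟩ := hg
  obtain ⟨t, ht, hhz, hhS⟩ := hh
  refine ⟨s * t, ?_, ?_, ?_⟩
  · have := hs.mul ht
    rwa [mul_one] at this
  · have e1 : g * h * z * (g * h)⁻¹ = g * (h * z * h⁻¹) * g⁻¹ := by group
    rw [e1, hhz, WL1_conj_pow, hgz, ← pow_mul]
  · have h1 := SB_conj hhS g
    rw [WL1_cj Nat.prime_two z e hz g s (hs.of_dvd (by norm_num)) hgz, ← funMap_mul] at h1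
    exact h1.trans hgS

theorem WL4_of_mem {G : Type} [Group G] (M : Ideal (integralClosure ℤ ℂ)) (z : G) (η₀ : G → ℂ) (g : G) (hg : g ∈ Cz (⊤ : Subgroup G) z) :
    LW4 M z η₀ g := by
  refine ⟨1, Nat.ModEq.refl 1, ?_, SB_inner hg η₀⟩
  rw [pow_one]
  have h1 := (mem_Cz.1 hg).2
  rw [← h1]
  group

theorem WL4 (M : Ideal (integralClosure ℤ ℂ)) (G : Type) [Group G] [Finite G] (z : G) (e : ℕ) (he : 2 ≤ e) (hz : orderOf z = 2 ^ e)
    (η₀ : G → ℂ) : ∃ (L : Subgroup G) (f : ℕ), (∀ g, g ∈ L ↔ LW4 M z η₀ g) ∧ Cz (⊤ : Subgroup G) z ≤ L ∧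
      (Cz (⊤ : Subgroup G) z).relIndex L = 2 ^ f ∧ f + 2 ≤ e := by
  classical
  have hone : LW4 M z η₀ (1 : G) := WL4_of_mem M z η₀ 1 (Subgroup.one_mem _)
  have hpow : ∀ g : G, LW4 M z η₀ g → ∀ n : ℕ, LW4 M z η₀ (g ^ n) := by
    intro g hg n
    induction n with
    | zero =>
      rw [pow_zero]
      exact hone
    | succ n ih =>
      rw [pow_succ]
      exact WL4_mul M z e hz η₀ _ _ ih hg
  obtain ⟨L, hL⟩ : ∃ L : Subgroup G, ∀ g, g ∈ L ↔ LW4 M z η₀ g :=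
    ⟨{ carrier := {g | LW4 M z η₀ g}
       mul_mem' := fun {g h} hg hh => WL4_mul M z e hz η₀ g h hg hh
       one_mem' := hone
       inv_mem' := fun {g} hg => by
        have h1 : g⁻¹ = g ^ (orderOf g - 1) := by
          have h2 : g ^ (orderOf g - 1) * g = 1 := by
            rw [← pow_succ, Nat.sub_add_cancel (orderOf_pos g), pow_orderOf_eq_one]
          exact (eq_inv_of_mul_eq_one_left h2).symm
        change LW4 M z η₀ g⁻¹
        rw [h1]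
        exact hpow g hg _ }, fun _ => Iff.rfl⟩
  have hKL : Cz (⊤ : Subgroup G) z ≤ L := fun g hg => (hL g).2 (WL4_of_mem M z η₀ g hg)
  obtain ⟨K, hK⟩ : ∃ K : Subgroup G, K = Cz (⊤ : Subgroup G) z := ⟨_, rfl⟩
  have hmemK : ∀ g : G, g ∈ K ↔ g * z * g⁻¹ = z := by
    intro g
    rw [hK, mem_Cz]
    constructor
    · rintro ⟨-, h⟩
      rw [← h]
      group
    · intro h
      refine ⟨Subgroup.mem_top _, ?_⟩
      have h2 : g * z = z * g := by
        calc g * z = (g * z * g⁻¹) * g := by group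
          _ = z * g := by rw [h]
      exact h2.symm
  have hcjp : ∀ (g : G) (s : ℕ), g * z * g⁻¹ = z ^ s → ∀ n : ℕ, g ^ n * z * (g ^ n)⁻¹ = z ^ (s ^ n) := by
    intro g s h n
    induction n with
    | zero => simp
    | succ n ih =>
      have e1 : g ^ (n + 1) * z * (g ^ (n + 1))⁻¹ = g * (g ^ n * z * (g ^ n)⁻¹) * g⁻¹ := by
        rw [pow_succ']
        group
      rw [e1, ih, WL1_conj_pow, h, ← pow_mul, ← pow_succ']
  have hp : Nat.Prime 2 := Nat.prime_two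
  have he1 : 1 ≤ e := by omega
  have hpe : ∀ g ∈ L, g ^ (2 ^ (e - 1)) ∈ K := by
    intro g hg
    obtain ⟨s, hs, hgz, -⟩ := (hL g).1 hg
    rw [hmemK, hcjp g s hgz]
    have h1 : ((2 : ℕ) : ℤ) ∣ (s : ℤ) - 1 := by
      have h2 := (Nat.modEq_iff_dvd).1 (hs.of_dvd (show 2 ∣ 4 by norm_num)).symm
      exact_mod_cast h2
    have h2 := dvd_sub_pow_of_dvd_sub h1 (e - 1)
    rw [one_pow, Nat.sub_add_cancel he1] at h2
    have h3 : s ^ 2 ^ (e - 1) ≡ 1 [MOD 2 ^ e] := by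
      refine Nat.ModEq.symm ((Nat.modEq_iff_dvd).2 ?_)
      push_cast at h2 ⊢
      exact h2
    have h4 : z ^ (s ^ 2 ^ (e - 1)) = z ^ 1 := by
      rw [pow_eq_pow_iff_modEq, hz]
      exact h3
    rw [h4, pow_one]
  have hcjK : ∀ g ∈ L, ∀ k ∈ K, g * k * g⁻¹ ∈ K := by
    intro g hg k hk
    obtain ⟨s, hs, hgz, -⟩ := (hL g).1 hg
    have h1 := WL1_cj Nat.prime_two z e hz g s (hs.of_dvd (by norm_num)) hgz
    rw [← hK] at h1
    rw [← h1]
    exact conj_mem_cj.2 hk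
  have hN : (K.subgroupOf L).Normal := by
    refine ⟨fun k hk g => ?_⟩
    rw [Subgroup.mem_subgroupOf] at hk ⊢
    exact hcjK g.1 g.2 k.1 hk
  have := hN
  haveI := Fact.mk hp
  have hPG : IsPGroup 2 (L ⧸ K.subgroupOf L) := by
    intro q
    refine ⟨e - 1, ?_⟩
    obtain ⟨g, rfl⟩ := QuotientGroup.mk_surjective q
    rw [← QuotientGroup.mk_pow, QuotientGroup.eq_one_iff, Subgroup.mem_subgroupOf]
    exact hpe g.1 g.2
  obtain ⟨f, hf⟩ := (IsPGroup.iff_card).1 hPG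
  refine ⟨L, f, hL, hKL, ?_, ?_⟩
  · rw [← hK]
    exact hf
  -- the bound
  have hzp : orderOf (z ^ 4) = 2 ^ (e - 2) := by
    rw [orderOf_pow, hz]
    have h1 : 2 ^ e = 2 ^ (e - 2) * 4 := by
      obtain ⟨e', rfl⟩ : ∃ e', e = e' + 2 := ⟨e - 2, by omega⟩
      rw [Nat.add_sub_cancel, pow_add]
      norm_num
    rw [h1, Nat.gcd_eq_right (Dvd.intro_left _ rfl), Nat.mul_div_cancel _ (by norm_num)]
  have hcomm : ∀ g ∈ L, g * z * g⁻¹ * z⁻¹ ∈ Subgroup.zpowers (z ^ 4) := by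
    intro g hg
    obtain ⟨s, hs, hgz, -⟩ := (hL g).1 hg
    rw [hgz]
    have h1 : ((4 : ℕ) : ℤ) ∣ (s : ℤ) - 1 := by
      have h2 := (Nat.modEq_iff_dvd).1 hs.symm
      exact_mod_cast h2
    obtain ⟨k, hk⟩ := h1
    refine ⟨k, ?_⟩
    change (z ^ 4) ^ k = z ^ s * z⁻¹
    rw [← zpow_natCast z 4, ← zpow_mul, ← hk, zpow_sub, zpow_natCast, zpow_one]
  have hle : Nat.card (L ⧸ K.subgroupOf L) ≤ Nat.card (Subgroup.zpowers (z ^ 4)) := by
    refine Nat.card_le_card_of_injective (fun q => (⟨q.out.1 * z * q.out.1⁻¹ * z⁻¹, hcomm _ q.out.2⟩ : Subgroup.zpowers (z ^ 4))) ?_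
    intro q q' h
    have h1 := congrArg Subtype.val h
    dsimp only at h1
    have h2 : q.out.1 * z * q.out.1⁻¹ = q'.out.1 * z * q'.out.1⁻¹ := mul_right_cancel h1
    have h3 : ((q.out : L)⁻¹ * q'.out : L) ∈ K.subgroupOf L := by
      rw [Subgroup.mem_subgroupOf, hmemK]
      change (q.out.1⁻¹ * q'.out.1) * z * (q.out.1⁻¹ * q'.out.1)⁻¹ = z
      calc (q.out.1⁻¹ * q'.out.1) * z * (q.out.1⁻¹ * q'.out.1)⁻¹ = q.out.1⁻¹ * (q'.out.1 * z * q'.out.1⁻¹) * q.out.1 := by group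
        _ = q.out.1⁻¹ * (q.out.1 * z * q.out.1⁻¹) * q.out.1 := by rw [h2]
        _ = z := by group
    have h4 := QuotientGroup.eq.2 h3
    rwa [QuotientGroup.out_eq', QuotientGroup.out_eq'] at h4
  rw [hf, Nat.card_zpowers, hzp] at hle
  have h5 := (Nat.pow_le_pow_iff_right hp.one_lt).1 hle
  omega

/-- the powers `z ^ j`, `j ≡ s` modulo `4` -/
def WFM4_J {G : Type} [Group G] (z : G) (s : ℕ) : Set G := {a | ∃ j : ℕ, j ≡ s [MOD 4] ∧ z ^ j = a}

theorem WFM4_cardJ {G : Type} [Group G] [Finite G] (z : G) (e : ℕ) (he : 2 ≤ e)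
    (ho : orderOf z = 2 ^ e) (s : ℕ) : Nat.card (WFM4_J z s) = 2 ^ (e - 2) := by
  classical
  have hpe : 2 ^ e = 4 * 2 ^ (e - 2) := by
    obtain ⟨e', rfl⟩ : ∃ e', e = e' + 2 := ⟨e - 2, by omega⟩
    rw [Nat.add_sub_cancel, pow_add]
    ring
  have hb : Function.Bijective (fun i : Fin (2 ^ (e - 2)) => (⟨z ^ (s + 4 * (i : ℕ)), ⟨s + 4 * (i : ℕ), by
      unfold Nat.ModEq
      rw [Nat.add_mul_mod_self_left], rfl⟩⟩ : WFM4_J z s)) := by
    constructor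
    · intro i i' h
      have h1 : z ^ (s + 4 * (i : ℕ)) = z ^ (s + 4 * (i' : ℕ)) := congrArg Subtype.val h
      rw [pow_eq_pow_iff_modEq, ho, hpe] at h1
      have h2 : 4 * (i : ℕ) ≡ 4 * (i' : ℕ) [MOD 4 * 2 ^ (e - 2)] := Nat.ModEq.add_left_cancel' s h1
      have h3 : (i : ℕ) ≡ (i' : ℕ) [MOD 2 ^ (e - 2)] := Nat.ModEq.mul_left_cancel' (by norm_num) h2
      exact Fin.ext (Nat.ModEq.eq_of_lt_of_lt h3 i.2 i'.2)
    · rintro ⟨a, j, hj, rfl⟩
      have h0 : s ≤ j + 2 ^ e * s := by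
        have : 1 ≤ 2 ^ e := Nat.one_le_pow _ _ (by norm_num)
        nlinarith
      have h1 : j + 2 ^ e * s ≡ s [MOD 4] := by
        have h2 : 2 ^ e * s ≡ 0 [MOD 4] := (Nat.modEq_zero_iff_dvd).2 (by
          rw [hpe, mul_assoc]
          exact Dvd.intro _ rfl)
        have h3 := hj.add h2
        rwa [add_zero] at h3
      obtain ⟨i₀, hi₀⟩ := (Nat.modEq_iff_dvd' h0).1 h1.symm
      have hpos : 0 < 2 ^ (e - 2) := pow_pos (by norm_num) _
      refine ⟨⟨i₀ % 2 ^ (e - 2), Nat.mod_lt _ hpos⟩, ?_⟩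
      refine Subtype.ext ?_
      show z ^ (s + 4 * (i₀ % 2 ^ (e - 2))) = z ^ j
      have h4 : 4 * (i₀ % 2 ^ (e - 2)) ≡ 4 * i₀ [MOD 2 ^ e] := by
        rw [hpe]
        exact Nat.ModEq.mul_left' 4 (Nat.mod_modEq _ _)
      have h5 : s + 4 * (i₀ % 2 ^ (e - 2)) ≡ j + 2 ^ e * s [MOD 2 ^ e] := by
        have h6 := (Nat.ModEq.refl (n := 2 ^ e) s).add h4
        rw [← hi₀, Nat.add_sub_cancel' h0] at h6
        exact h6
      have h7 : s + 4 * (i₀ % 2 ^ (e - 2)) ≡ j [MOD 2 ^ e] := by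
        refine h5.trans ?_
        unfold Nat.ModEq
        rw [Nat.add_mul_mod_self_left]
      rw [pow_eq_pow_iff_modEq, ho]
      exact h7
  rw [← Nat.card_congr (Equiv.ofBijective _ hb), Nat.card_fin]

theorem WFM4 (G : Type) [Group G] [Finite G] (z : G) (e f : ℕ) (he : 2 ≤ e) (ho : orderOf z = 2 ^ e) (L : Subgroup G)
    (hL : ∀ g ∈ L, ∃ s : ℕ, s ≡ 1 [MOD 4] ∧ g * z * g⁻¹ = z ^ s)
    (hidx : (Cz (⊤ : Subgroup G) z).relIndex L = 2 ^ f) (s : ℕ) (hs : ¬ 2 ∣ s) :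
    ∃ (n : ℕ) (j : Fin n → ℕ), n * 2 ^ f = 2 ^ (e - 2) ∧ (∀ i, j i ≡ s [MOD 4]) ∧
      ∀ i i', i ≠ i' → ∀ g : G, g * z ^ (j i) * g⁻¹ = z ^ (j i') → g ∉ L ∧ ∃ s' : ℕ, s' ≡ 1 [MOD 4] ∧ g * z * g⁻¹ = z ^ s' := by
  classical
  have hp : Nat.Prime 2 := Nat.prime_two
  have he1 : 1 ≤ e := by omega
  have hJ : ∀ (g : L) (a : WFM4_J z s), (g : G) * (a : G) * (g : G)⁻¹ ∈ WFM4_J z s := by
    rintro ⟨g, hg⟩ ⟨a, j, hj, rfl⟩
    obtain ⟨t, ht, hgz⟩ := hL g hg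
    refine ⟨t * j, ?_, ?_⟩
    · have := ht.mul hj
      rwa [one_mul] at this
    · show z ^ (t * j) = g * z ^ j * g⁻¹
      rw [pow_mul, ← hgz, conj_pow]
  let act : MulAction L (WFM4_J z s) :=
    { smul := fun g a => ⟨(g : G) * (a : G) * (g : G)⁻¹, hJ g a⟩
      one_smul := fun a => Subtype.ext (by
        show ((1 : L) : G) * (a : G) * ((1 : L) : G)⁻¹ = (a : G)
        simp)
      mul_smul := fun g h a => Subtype.ext (by
        show ((g * h : L) : G) * (a : G) * ((g * h : L) : G)⁻¹ = (g : G) * ((h : G) * (a : G) * (h : G)⁻¹) * (g : G)⁻¹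
        push_cast
        group) }
  have hsm : ∀ (g : L) (a : WFM4_J z s), ((g • a : WFM4_J z s) : G) = (g : G) * (a : G) * (g : G)⁻¹ := fun _ _ => rfl
  have hndvd : ∀ j : ℕ, j ≡ s [MOD 4] → ¬ 2 ∣ j := by
    intro j hj h
    exact hs ((Nat.ModEq.dvd_iff (hj.of_dvd (show 2 ∣ 4 by norm_num)) dvd_rfl).1 h)
  have hst : ∀ a : WFM4_J z s, MulAction.stabilizer L a = (Cz (⊤ : Subgroup G) z).subgroupOf L := by
    rintro ⟨a, j, hj, rfl⟩
    obtain ⟨t, ht, hzt⟩ := WFM_inv 2 hp z e he1 ho j (hndvd j hj)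
    ext g
    rw [MulAction.mem_stabilizer_iff, Subgroup.mem_subgroupOf, WFM_Cz]
    constructor
    · intro h
      have h1 : (g : G) * z ^ j * (g : G)⁻¹ = z ^ j := congrArg Subtype.val h
      have h2 : (g : G) * (z ^ j) ^ t * (g : G)⁻¹ = (z ^ j) ^ t := by
        rw [← conj_pow, h1]
      rw [hzt] at h2
      exact (mul_inv_eq_iff_eq_mul.1 h2).symm
    · intro h
      refine Subtype.ext ?_
      rw [hsm]
      have h1 : (g : G) * z * (g : G)⁻¹ = z := by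
        rw [mul_inv_eq_iff_eq_mul]
        exact h.symm
      show (g : G) * z ^ j * (g : G)⁻¹ = z ^ j
      rw [← conj_pow, h1]
  set Ω := MulAction.orbitRel.Quotient L (WFM4_J z s) with hΩ
  have hfin : Finite Ω := inferInstance
  have : Fintype Ω := Fintype.ofFinite Ω
  have hcard : Fintype.card Ω * 2 ^ f = 2 ^ (e - 2) := by
    have h1 : Nat.card (WFM4_J z s) = Nat.card (Σ ω : Ω, L ⧸ MulAction.stabilizer L ω.out) :=
      Nat.card_congr (MulAction.selfEquivSigmaOrbitsQuotientStabilizer L (WFM4_J z s))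
    rw [WFM4_cardJ z e he ho s, Nat.card_sigma] at h1
    rw [h1]
    have h2 : ∀ ω : Ω, Nat.card (L ⧸ MulAction.stabilizer L ω.out) = 2 ^ f := by
      intro ω
      rw [hst]
      exact hidx
    rw [Finset.sum_congr rfl fun ω _ => h2 ω, Finset.sum_const, Finset.card_univ, smul_eq_mul]
  have hjex : ∀ i : Fin (Fintype.card Ω), ∃ j : ℕ, j ≡ s [MOD 4] ∧
      z ^ j = (((Fintype.equivFin Ω).symm i).out : WFM4_J z s) := fun i => (((Fintype.equivFin Ω).symm i).out).2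
  choose j hj1 hj2 using hjex
  refine ⟨Fintype.card Ω, j, hcard, hj1, ?_⟩
  intro i i' hii g hg
  constructor
  · intro hgL
    apply hii
    have h1 : (⟨g, hgL⟩ : L) • ((Fintype.equivFin Ω).symm i).out = ((Fintype.equivFin Ω).symm i').out := by
      refine Subtype.ext ?_
      rw [hsm, ← hj2 i, ← hj2 i']
      exact hg
    have h2 : (Fintype.equivFin Ω).symm i = (Fintype.equivFin Ω).symm i' := by
      rw [← Quotient.out_eq' ((Fintype.equivFin Ω).symm i), ← Quotient.out_eq' ((Fintype.equivFin Ω).symm i')]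
      refine Quotient.sound' ?_
      refine Setoid.symm' _ ?_
      rw [MulAction.orbitRel_apply]
      exact ⟨⟨g, hgL⟩, h1⟩
    exact (Fintype.equivFin Ω).symm.injective h2
  · obtain ⟨t, ht, hzt⟩ := WFM_inv 2 hp z e he1 ho (j i) (hndvd _ (hj1 i))
    refine ⟨j i' * t, ?_, ?_⟩
    · have h1 : j i' ≡ j i [MOD 4] := (hj1 i').trans (hj1 i).symm
      have h4 : (4 : ℕ) ∣ 2 ^ e := by
        obtain ⟨e', rfl⟩ : ∃ e', e = e' + 2 := ⟨e - 2, by omega⟩
        exact ⟨2 ^ e', by ring⟩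
      have h2 : j i * t ≡ 1 [MOD 4] := ht.of_dvd h4
      exact (h1.mul_right t).trans h2
    · have h3 : g * (z ^ j i) ^ t * g⁻¹ = (z ^ j i') ^ t := by
        rw [← conj_pow, hg]
      rw [hzt] at h3
      rw [h3, pow_mul]

end Pool.Agent.LE
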