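import Pool.Agent.helper12.NA.GM4
import Pool.Agent.helper12.NA.WL4
import Pool.Agent.helper70.LZ.ZBX
import Pool.Agent.helper70.FI4.DefsK

/-!
# MP_baa4d7_al, project NA, `p = 2`: the bound `l(B) ≤ 4 q ^ 2` (adaptation of `ZBX` of helper70)
-/

set_option autoImplicit false

namespace Pool.Agent.LE

open Pool.Agent.helper58.DC Pool.Agent.DI Pool.Agent.GR Pool.Agent.OB Pool.Agent.DR Pool.Agent.FI Pool.Agent.FI3 Pool.Agent.FI4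

/-- The estimate for one exponent `s`. -/
theorem WBO4 (hZNR : ZNR_stmt) (hZOR : ZOR_stmt) (hZE0 : ZE0_stmt) (hZPR : ZPR_stmt)
    (M : Ideal (integralClosure ℤ ℂ)) (hS : Setup 2 M) (G : Type) [Group G] [Finite G]
    (χ : G → ℂ) (z : G) (e f : ℕ) (he : 2 ≤ e)
    (ho : orderOf z = 2 ^ e) (m : ℕ) (hm : Gm4 (Nat.card G) m) (η₀ : G → ℂ)
    (hη : η₀ ∈ IrrOn (Cz (⊤ : Subgroup G) z)) (hSB : SB M (⊤ : Subgroup G) η₀ χ)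
    (L : Subgroup G) (hL : ∀ g, g ∈ L ↔ LW4 M z η₀ g) (hidx : (Cz (⊤ : Subgroup G) z).relIndex L = 2 ^ f)
    (s : ℕ) (hs : ¬ 2 ∣ s)
    (X : Finset (G → ℂ)) (hX : ∀ ψ ∈ X, ψ ∈ Bl M (⊤ : Subgroup G) χ ∧ PR m ψ) :
    (2 : ℝ) ^ (2 * e) * ∑ ψ ∈ X, ‖az 2 (Cz (⊤ : Subgroup G) z) η₀ ψ (z ^ s)‖ ^ 2 ≤ (2 : ℝ) ^ (f + 2) := by
  classical
  have hp : Nat.Prime 2 := hS.pr
  have hfin : (Bl M (⊤ : Subgroup G) χ).Finite := (IrrOn_fin (⊤ : Subgroup G)).subset fun ψ h => h.1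
  letI : Fintype (Bl M (⊤ : Subgroup G) χ) := hfin.fintype
  have hzK : z ∈ Cz (⊤ : Subgroup G) z := mem_Cz.2 ⟨Subgroup.mem_top z, rfl⟩
  have hcen : Cen (Cz (⊤ : Subgroup G) z) z := fun l hl => (mem_Cz.1 hl).2.symm
  have hP : PEl 2 z := ⟨e, by rw [← ho]; exact pow_orderOf_eq_one z⟩
  obtain ⟨r, hr, hr0, hr1⟩ := hZE0 2 hp G (Cz (⊤ : Subgroup G) z) z hzK hcen e ho η₀ hη
  have hcop : ∀ j : ℕ, ¬ 2 ∣ j → j.Coprime (orderOf z) := fun j hj => by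
    rw [ho]
    exact Nat.Coprime.pow_right e (((Nat.Prime.coprime_iff_not_dvd hp).2 hj).symm)
  have hCz : ∀ j : ℕ, ¬ 2 ∣ j → Cz (⊤ : Subgroup G) (z ^ j) = Cz (⊤ : Subgroup G) z := fun j hj =>
    ZBX_Cz z j (hcop j hj)
  have hPj : ∀ j : ℕ, PEl 2 (z ^ j) := fun j => by
    obtain ⟨k, hk⟩ := hP
    exact ⟨k, by rw [← pow_mul, mul_comm, pow_mul, hk, one_pow]⟩
  obtain ⟨n, j, hn, hj1, hj2⟩ := WFM4 G z e f he ho L (fun g hg => by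
    obtain ⟨s', h1, h2, -⟩ := (hL g).1 hg
    exact ⟨s', h1, h2⟩) hidx s hs
  have hj : ∀ i, ¬ 2 ∣ j i := fun i h =>
    hs ((Nat.ModEq.dvd_iff ((hj1 i).of_dvd (show 2 ∣ 4 by norm_num)) dvd_rfl).1 h)
  have hn0 : 0 < n := by
    rcases Nat.eq_zero_or_pos n with h | h
    · rw [h, zero_mul] at hn
      have : 0 < 2 ^ (e - 2) := pow_pos (by norm_num) _
      omega
    · exact h
  let a : Fin n → (Bl M (⊤ : Subgroup G) χ) → ℂ := fun i ψ =>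
    az 2 (Cz (⊤ : Subgroup G) z) η₀ ψ.1 (z ^ (j i))
  let X' : Finset (Bl M (⊤ : Subgroup G) χ) := Finset.univ.filter fun ψ => ψ.1 ∈ X
  have h1 : ∀ i, ∑ ψ, ‖a i ψ‖ ^ 2 ≤ r := by
    intro i
    have h2 := hZNR 2 M hS G χ (z ^ (j i)) (hPj _) η₀ (by rw [hCz _ (hj i)]; exact hη) hSB
    rw [hCz _ (hj i), ZBX_sum _ hfin, hr] at h2
    have h3 : ((∑ ψ, ‖a i ψ‖ ^ 2 : ℝ) : ℂ) = (r : ℂ) := by
      rw [← h2]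
      push_cast
      refine Finset.sum_congr rfl fun ψ _ => ?_
      rw [Complex.mul_conj']
    exact (Complex.ofReal_inj.1 h3).le
  have h2 : ∀ i i', i ≠ i' → ∑ ψ, a i ψ * (starRingEnd ℂ) (a i' ψ) = 0 := by
    intro i i' hij
    have h3 := hZOR 2 M hS G χ (Cz (⊤ : Subgroup G) z) (z ^ (j i)) (z ^ (j i')) (hPj _) (hPj _)
      (hCz _ (hj i)) (hCz _ (hj i')) η₀ hη hSB (by
        intro g hg hSBg
        obtain ⟨h4, s', h5, h6⟩ := hj2 i i' hij g hg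
        exact h4 ((hL g).2 ⟨s', h5, h6, hSBg⟩))
    rw [ZBX_sum _ hfin] at h3
    exact h3
  have h3 : ∀ i i', ∀ ψ ∈ X', a i ψ = a i' ψ := by
    intro i i' ψ hψ
    have h4 := (hX ψ.1 (Finset.mem_filter.1 hψ).2).2
    exact ZGA4 G m hm ψ.1 h4 z hP η₀ _ _ (hj i) ((hj1 i).trans (hj1 i').symm)
  have h4 := hZPR (Bl M (⊤ : Subgroup G) χ) X' n a r hr0 h1 h2 h3 ⟨0, hn0⟩
  have h5 : ∑ ψ ∈ X', ‖a ⟨0, hn0⟩ ψ‖ ^ 2 = ∑ ψ ∈ X, ‖az 2 (Cz (⊤ : Subgroup G) z) η₀ ψ (z ^ s)‖ ^ 2 := by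
    refine Finset.sum_bij (fun ψ _ => ψ.1) (fun ψ hψ => (Finset.mem_filter.1 hψ).2) (fun ψ _ ψ' _ h => Subtype.ext h)
      (fun ψ hψ => ⟨⟨ψ, (hX ψ hψ).1⟩, Finset.mem_filter.2 ⟨Finset.mem_univ _, hψ⟩, rfl⟩) fun ψ hψ => ?_
    have h6 := (hX ψ.1 (Finset.mem_filter.1 hψ).2).2
    have h7 := ZGA4 G m hm ψ.1 h6 z hP η₀ (j ⟨0, hn0⟩) s (hj _) (hj1 _)
    change ‖az 2 (Cz (⊤ : Subgroup G) z) η₀ ψ.1 (z ^ (j ⟨0, hn0⟩))‖ ^ 2 = _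
    rw [h7]
  rw [h5] at h4
  obtain ⟨S, hSS⟩ : ∃ S : ℝ, S = ∑ ψ ∈ X, ‖az 2 (Cz (⊤ : Subgroup G) z) η₀ ψ (z ^ s)‖ ^ 2 := ⟨_, rfl⟩
  rw [← hSS] at h4 ⊢
  have h6 : (2 : ℝ) ^ e * ((n : ℝ) * S) ≤ 1 := (mul_le_mul_of_nonneg_left h4 (by positivity)).trans hr1
  have h7 : (n : ℝ) * 2 ^ f = 2 ^ (e - 2) := by exact_mod_cast hn
  have h8 : (2 : ℝ) ^ e = 2 ^ (e - 2) * 4 := by
    obtain ⟨e', rfl⟩ : ∃ e', e = e' + 2 := ⟨e - 2, by omega⟩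
    rw [Nat.add_sub_cancel, pow_add]
    norm_num
  calc (2 : ℝ) ^ (2 * e) * S = 2 ^ e * (2 ^ e * S) := by ring
    _ = 2 ^ e * ((2 ^ (e - 2) * 4) * S) := by rw [← h8]
    _ = 2 ^ e * (((n : ℝ) * 2 ^ f * 4) * S) := by rw [h7]
    _ = (2 ^ e * ((n : ℝ) * S)) * 2 ^ (f + 2) := by ring
    _ ≤ 1 * 2 ^ (f + 2) := mul_le_mul_of_nonneg_right h6 (by positivity)
    _ = 2 ^ (f + 2) := one_mul _

/-- The bound for `X`. -/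
theorem WBX4 (hZNR : ZNR_stmt) (hZOR : ZOR_stmt) (hZE0 : ZE0_stmt) (hZPR : ZPR_stmt) (hWEX : WEX_stmt) (hWL2 : WL2_stmt)
    (hWPL : WPL_stmt) (hWNG : WNG_stmt)
    (M : Ideal (integralClosure ℤ ℂ)) (hS : Setup 2 M) (G : Type) [Group G] [Finite G] (χ : G → ℂ)
    (hχ : χ ∈ IrrOn (⊤ : Subgroup G)) (z x : G) (e q : ℕ) (he : 2 ≤ e) (hU : UZ 2 M χ z x e q) (m : ℕ) (hm : Gm4 (Nat.card G) m) :
    {ψ : G → ℂ | ψ ∈ Bl M (⊤ : Subgroup G) χ ∧ PR m ψ}.ncard ≤ 4 * q ^ 2 := by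
  classical
  have hp : Nat.Prime 2 := hS.pr
  have ho := hU.ord
  have hP : PEl 2 z := ⟨e, by rw [← ho]; exact pow_orderOf_eq_one z⟩
  obtain ⟨η₀, hη, hSB, hne⟩ := hWEX 2 M hS G χ hχ z x hU.com hP hU.reg hU.unt
  obtain ⟨L, f, hL, hKL, hidx, -⟩ := WL4 M G z e he ho η₀
  have hcj : ∀ l ∈ L, cjS l (Cz (⊤ : Subgroup G) z) = Cz (⊤ : Subgroup G) z := by
    intro l hl
    obtain ⟨s, h1, h2, -⟩ := (hL l).1 hl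
    exact WL1_cj hp z e ho l s (h1.of_dvd (by norm_num)) h2
  have hunt : ¬ InM M (cc η₀ (cls (⊤ : Subgroup G) (z * x))) := by
    intro h
    apply hU.unt
    have h1 := InM.of_mcong hS (hSB (cls (⊤ : Subgroup G) (z * x)) (cls_CF (Subgroup.mem_top _)) (cls_int _ _))
    have h2 := InM.sub hS h h1
    rw [sub_sub_cancel] at h2
    exact h2
  obtain ⟨y, hy, -, hyu, hyN⟩ := hWL2 2 M hS G (Cz (⊤ : Subgroup G) z) L f hKL hcj hidx η₀ hη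
    (fun l hl => by
      obtain ⟨s, -, -, h3⟩ := (hL l).1 hl
      exact h3) (z * x) hunt
  obtain ⟨N, hN⟩ : ∃ N : ℕ, N = pp 2 (Cz (Cz (⊤ : Subgroup G) z) y) := ⟨_, rfl⟩
  rw [← hN] at hyN
  have hNq : 2 ^ f * N ≤ q * 2 ^ e := hyN.trans hU.le
  have hfin : (Bl M (⊤ : Subgroup G) χ).Finite := (IrrOn_fin (⊤ : Subgroup G)).subset fun ψ h => h.1
  have hXf : {ψ : G → ℂ | ψ ∈ Bl M (⊤ : Subgroup G) χ ∧ PR m ψ}.Finite := hfin.subset fun ψ h => h.1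
  obtain ⟨X, hX⟩ := hXf.exists_finset_coe
  have hX' : ∀ ψ ∈ X, ψ ∈ Bl M (⊤ : Subgroup G) χ ∧ PR m ψ := fun ψ hψ => by
    have h : ψ ∈ {ψ : G → ℂ | ψ ∈ Bl M (⊤ : Subgroup G) χ ∧ PR m ψ} := by rw [← hX]; exact hψ
    exact h
  have hcard : {ψ : G → ℂ | ψ ∈ Bl M (⊤ : Subgroup G) χ ∧ PR m ψ}.ncard = X.card := by
    rw [← hX, Set.ncard_coe_finset]
  rw [hcard]
  have hn : 0 < 2 ^ e := pow_pos hp.pos _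
  obtain ⟨ζ, hζ⟩ : ∃ ζ : ℂ, IsPrimitiveRoot ζ (2 ^ e) := ⟨_, Complex.isPrimitiveRoot_exp _ hn.ne'⟩
  have hcop : ∀ s : ℕ, s.Coprime (2 ^ e) → ¬ 2 ∣ s := fun s hs h => by
    have h1 : 2 ∣ Nat.gcd s (2 ^ e) := Nat.dvd_gcd h (dvd_pow_self 2 (by omega))
    rw [Nat.Coprime] at hs
    rw [hs] at h1
    exact hp.one_lt.ne' (Nat.dvd_one.1 h1)
  have hPex : ∀ ψ ∈ X, ∃ P : Polynomial ℤ, ∀ s : ℕ,
      (N : ℂ) * az 2 (Cz (⊤ : Subgroup G) z) η₀ ψ (z ^ s) = Polynomial.aeval (ζ ^ s) P := fun ψ hψ => by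
    rw [hN]
    exact hWPL 2 M hS G z y hy η₀ hη hyu ψ (hX' ψ hψ).1.1 (2 ^ e) hn (by rw [← ho]; exact pow_orderOf_eq_one z) ζ hζ
  choose! P hPP using hPex
  have hN0 : 0 < N := by
    rw [hN]
    unfold pp
    exact pow_pos (by norm_num) _
  have hNR : (0 : ℝ) < (N : ℝ) := by exact_mod_cast hN0
  have hNC : (N : ℂ) ≠ 0 := by exact_mod_cast hN0.ne'
  have hPζ : ∀ ψ ∈ X, Polynomial.aeval ζ (P ψ) ≠ 0 := by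
    intro ψ hψ
    have h1 := hPP ψ hψ 1
    rw [pow_one, pow_one] at h1
    rw [← h1]
    exact mul_ne_zero hNC (hne ψ (hX' ψ hψ).1)
  -- one primitive root
  have hone : ∀ μ ∈ primitiveRoots (2 ^ e) ℂ,
      (2 : ℝ) ^ (2 * e) * ∑ ψ ∈ X, ‖Polynomial.aeval μ (P ψ)‖ ^ 2 ≤ (N : ℝ) ^ 2 * 2 ^ (f + 2) := by
    intro μ hμ
    have h1 : IsPrimitiveRoot μ (2 ^ e) := (mem_primitiveRoots hn).1 hμ
    haveI : NeZero (2 ^ e) := ⟨hn.ne'⟩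
    obtain ⟨s, _, hs, hsμ⟩ := hζ.isPrimitiveRoot_iff.1 h1
    have hs' : ¬ 2 ∣ s := hcop s hs
    have h2 := WBO4 hZNR hZOR hZE0 hZPR M hS G χ z e f he ho m hm η₀ hη hSB L hL hidx s hs' X hX'
    have h3 : ∑ ψ ∈ X, ‖Polynomial.aeval μ (P ψ)‖ ^ 2 =
        (N : ℝ) ^ 2 * ∑ ψ ∈ X, ‖az 2 (Cz (⊤ : Subgroup G) z) η₀ ψ (z ^ s)‖ ^ 2 := by
      rw [Finset.mul_sum]
      refine Finset.sum_congr rfl fun ψ hψ => ?_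
      rw [← hsμ, ← hPP ψ hψ s, norm_mul, mul_pow, Complex.norm_natCast]
    rw [h3]
    calc (2 : ℝ) ^ (2 * e) * ((N : ℝ) ^ 2 * ∑ ψ ∈ X, ‖az 2 (Cz (⊤ : Subgroup G) z) η₀ ψ (z ^ s)‖ ^ 2)
        = (N : ℝ) ^ 2 * ((2 : ℝ) ^ (2 * e) * ∑ ψ ∈ X, ‖az 2 (Cz (⊤ : Subgroup G) z) η₀ ψ (z ^ s)‖ ^ 2) := by
          ring
      _ ≤ (N : ℝ) ^ 2 * 2 ^ (f + 2) := mul_le_mul_of_nonneg_left h2 (by positivity)
  have htot : 0 < Nat.totient (2 ^ e) := Nat.totient_pos.2 hn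
  have h1 : (X.card : ℝ) * (Nat.totient (2 ^ e) : ℝ) ≤
      ∑ ψ ∈ X, ∑ μ ∈ primitiveRoots (2 ^ e) ℂ, ‖Polynomial.aeval μ (P ψ)‖ ^ 2 := by
    rw [← nsmul_eq_mul]
    refine Finset.card_nsmul_le_sum _ _ _ fun ψ hψ => ?_
    exact hWNG (2 ^ e) hn ζ hζ (P ψ) (hPζ ψ hψ)
  rw [Finset.sum_comm] at h1
  have h2 : (2 : ℝ) ^ (2 * e) * ∑ μ ∈ primitiveRoots (2 ^ e) ℂ, ∑ ψ ∈ X, ‖Polynomial.aeval μ (P ψ)‖ ^ 2 ≤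
      (Nat.totient (2 ^ e) : ℝ) * ((N : ℝ) ^ 2 * 2 ^ (f + 2)) := by
    rw [Finset.mul_sum]
    have h3 := Finset.sum_le_card_nsmul (primitiveRoots (2 ^ e) ℂ)
      (fun μ => (2 : ℝ) ^ (2 * e) * ∑ ψ ∈ X, ‖Polynomial.aeval μ (P ψ)‖ ^ 2) ((N : ℝ) ^ 2 * 2 ^ (f + 2))
      fun μ hμ => hone μ hμ
    rw [hζ.card_primitiveRoots, nsmul_eq_mul] at h3
    exact h3
  have h3 : (X.card : ℝ) * (2 : ℝ) ^ (2 * e) ≤ (N : ℝ) ^ 2 * 2 ^ (f + 2) := by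
    have h4 : (Nat.totient (2 ^ e) : ℝ) * ((X.card : ℝ) * (2 : ℝ) ^ (2 * e)) ≤
        (Nat.totient (2 ^ e) : ℝ) * ((N : ℝ) ^ 2 * 2 ^ (f + 2)) := by
      calc (Nat.totient (2 ^ e) : ℝ) * ((X.card : ℝ) * (2 : ℝ) ^ (2 * e))
          = (2 : ℝ) ^ (2 * e) * ((X.card : ℝ) * (Nat.totient (2 ^ e) : ℝ)) := by ring
        _ ≤ (2 : ℝ) ^ (2 * e) * ∑ μ ∈ primitiveRoots (2 ^ e) ℂ, ∑ ψ ∈ X, ‖Polynomial.aeval μ (P ψ)‖ ^ 2 :=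
            mul_le_mul_of_nonneg_left h1 (by positivity)
        _ ≤ _ := h2
    exact le_of_mul_le_mul_left h4 (by exact_mod_cast htot)
  have h4 : (X.card * 2 ^ (2 * e) : ℕ) ≤ N ^ 2 * 2 ^ (f + 2) := by
    exact_mod_cast h3
  have h5 : X.card * 2 ^ (2 * e) ≤ (4 * q ^ 2) * 2 ^ (2 * e) := by
    calc X.card * 2 ^ (2 * e) ≤ N ^ 2 * 2 ^ (f + 2) := h4
      _ ≤ N ^ 2 * 2 ^ (2 * f + 2) := Nat.mul_le_mul_left _ (Nat.pow_le_pow_right (by norm_num) (by omega))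
      _ = 4 * (2 ^ f * N) ^ 2 := by ring
      _ ≤ 4 * (q * 2 ^ e) ^ 2 := Nat.mul_le_mul_left _ (Nat.pow_le_pow_left hNq 2)
      _ = (4 * q ^ 2) * 2 ^ (2 * e) := by ring
  exact Nat.le_of_mul_le_mul_right h5 (pow_pos hp.pos _)

/-- The bound for `p = 2`. -/
theorem BZ2 (hZNR : ZNR_stmt) (hZOR : ZOR_stmt) (hZE0 : ZE0_stmt) (hZPR : ZPR_stmt) (hWEX : WEX_stmt) (hWL2 : WL2_stmt)
    (hWPL : WPL_stmt) (hWNG : WNG_stmt) (hCNG : CNG_stmt) (hLLN : LLN_stmt) (hTPR : Pool.Agent.FI.TPR_stmt)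
    (M : Ideal (integralClosure ℤ ℂ)) (hS : Setup 2 M) (G : Type) [Group G] [Finite G] (χ : G → ℂ)
    (hχ : χ ∈ IrrOn (⊤ : Subgroup G)) (z x : G) (e q : ℕ) (he : 2 ≤ e) (hU : UZ 2 M χ z x e q) :
    ∃ l : ℕ, LL 2 M χ ⊤ = l ∧ 1 ≤ l ∧ l ≤ 4 * q ^ 2 := by
  obtain ⟨m, hm⟩ := GM4 (Nat.card G) Nat.card_pos
  obtain ⟨l, hl, hl1⟩ := hLLN 2 M hS G χ ⊤
  obtain ⟨r, hr, hX⟩ := hCNG 2 M hS G χ m hm.toGq
  have hself : χ ∈ Blk M χ (⊤ : Subgroup G) := ⟨hχ, fun g => ⟨0, M.zero_mem, by simp⟩⟩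
  refine ⟨l, hl, hl1 ⟨χ, hself⟩, ?_⟩
  have hBl : Blk M χ (⊤ : Subgroup G) = Bl M ⊤ χ := by
    obtain ⟨-, hI, -⟩ := hTPR 2 M hS G
    ext ψ
    exact ⟨fun h => ⟨h.1, (hI ψ χ).1 h.2⟩, fun h => ⟨h.1, (hI ψ χ).2 h.2⟩⟩
  have h0 := WBX4 hZNR hZOR hZE0 hZPR hWEX hWL2 hWPL hWNG M hS G χ hχ z x e q he hU m hm
  rw [hBl, hl] at hX
  have h1 : (({ψ : G → ℂ | ψ ∈ Bl M (⊤ : Subgroup G) χ ∧ PR m ψ}.ncard : ℝ) : ℂ) = (((l : ℝ) + r : ℝ) : ℂ) := by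
    push_cast
    exact hX
  have h2 := Complex.ofReal_injective h1
  have h3 : (l : ℝ) ≤ ({ψ : G → ℂ | ψ ∈ Bl M (⊤ : Subgroup G) χ ∧ PR m ψ}.ncard : ℝ) := by
    rw [h2]
    linarith
  exact (by exact_mod_cast h3 : l ≤ {ψ : G → ℂ | ψ ∈ Bl M (⊤ : Subgroup G) χ ∧ PR m ψ}.ncard).trans h0

end Pool.Agent.LE
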